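import Pool.Agent.Lib_helper71.LSP3.DefsF
import Pool.Agent.Lib_helper68.LSPF.CR
import Pool.Agent.Lib_helper68.LSPF.HM
import Pool.Agent.Lib_helper68.LSPF.NG
import Pool.Agent.Lib_helper68.LSPF.TM
import Pool.Agent.Lib_helper41.LSP3.GEO

/-! LSP3, part F: from the moments to the counting. -/

set_option autoImplicit false

namespace Pool.Agent.LSP

open Pool.Agent.LEV Pool.Agent.LVB Pool.Agent.KSL
open Pool.Agent.LK (KerC)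
open Pool.Agent.FG61 (mu phi cc ff AA Lam)
open Complex MeasureTheory Filter Topology UpperHalfPlane ModularGroup ProbabilityTheory
open scoped MatrixGroups Modular ENNReal ModularForm ComplexConjugate ContDiff

/-- the mean square of a Dirichlet polynomial -/
theorem mx_sq {N : ℕ} [Fact N.Prime] {ι : Type} [Fintype ι] (f : ι → S2 N)
    (hi : Function.Injective f) (hn : ∀ i, IsNew (f i)) {E : ℕ} (hE1 : 1 ≤ E)
    (hE : (E : ℝ) ≤ (1 / 100) ^ 2 * N) {x : ℕ → ℝ} (hx : ∀ n, x n ≠ 0 → 1 ≤ n ∧ n ≤ E) :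
    ∑ i, om (f i) * MX E x (la (f i)) ^ 2 ≤ 2 * ∑ n ∈ Finset.Icc 1 E, x n ^ 2 / n := by
  have hN0 : (0 : ℝ) < N := by exact_mod_cast (Fact.out : N.Prime).pos
  have hEN : E < N := by
    have : (E : ℝ) < N := by nlinarith
    exact_mod_cast this
  have hPr : ∀ p ∈ Pr N, p.Prime ∧ p < N := by
    intro p hp
    unfold Pr at hp
    rw [Finset.mem_filter, Finset.mem_range] at hp
    exact ⟨hp.2, hp.1⟩
  obtain ⟨P, hP⟩ := st_exists (Pr N) (fun p hp => (hPr p hp).1)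
  have hc : ∀ m, x m / Real.sqrt m ≠ 0 → 1 ≤ m ∧ m ≤ E ∧ m.primeFactors ⊆ Pr N := by
    intro m hm
    have hxm : x m ≠ 0 := by
      intro h
      rw [h, zero_div] at hm
      exact hm rfl
    obtain ⟨h1, h2⟩ := hx m hxm
    refine ⟨h1, h2, fun p hp => ?_⟩
    have hp' := Nat.mem_primeFactors.mp hp
    unfold Pr
    rw [Finset.mem_filter, Finset.mem_range]
    refine ⟨?_, hp'.1⟩
    have : p ≤ m := Nat.le_of_dvd (by omega) hp'.2.1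
    omega
  have hG : HPoly (Pr N) E (MX E x) := ⟨fun m => x m / Real.sqrt m, hc, fun y => rfl⟩
  have htr := transfer f hi hn (ν := 1 / 100) (by norm_num) (by norm_num) hE1 hE
    (I := Pr N) hPr hP hG 0
  simp only [zero_mul, add_zero] at htr
  have h2 : ∫ y, MX E x y ^ 2 ∂P = ∑ n ∈ Finset.Icc 1 E, x n ^ 2 / n := by
    have h3 := st_sq (fun p hp => (hPr p hp).1) hP hc
    have h4 : ∀ m ∈ Finset.Icc 1 E, (x m / Real.sqrt m) ^ 2 = x m ^ 2 / m := by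
      intro m _
      rw [div_pow, Real.sq_sqrt (Nat.cast_nonneg m)]
    rw [← Finset.sum_congr rfl h4]
    exact h3
  rw [h2] at htr
  have h0 : (0 : ℝ) ^ 2 = 0 := by norm_num
  rw [h0, add_zero] at htr
  refine htr.trans (mul_le_mul_of_nonneg_right tym_exp ?_)
  exact Finset.sum_nonneg fun n _ => by positivity

/-- powers of a large number -/
theorem ex_pow (a : ℝ) {b : ℝ} (hb : 0 < b) : ∃ N₀ : ℕ, ∀ N : ℕ, N₀ ≤ N → a ≤ (N : ℝ) ^ b := by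
  have h1 : Tendsto (fun N : ℕ => (N : ℝ) ^ b) atTop atTop :=
    (tendsto_rpow_atTop hb).comp tendsto_natCast_atTop_atTop
  exact Filter.eventually_atTop.mp (h1.eventually_ge_atTop a)

/-- the error term of the dual norm -/
theorem ex_err {m₀ : ℕ} {s V : ℕ → ℝ} {T E N τ Kc : ℝ} (hτ : 0 ≤ τ) (hN : 1 ≤ N)
    (hE : 0 ≤ E) (hTE : T ^ 2 * E ≤ N ^ (9 / 10 : ℝ))
    (hV : ∀ m, s m ≠ 0 → |V m| ≤ N ^ (1 / 20 : ℝ))
    (hKc : Kc = τ * ∑ m ∈ Finset.Icc 1 m₀, |s m| * Real.sqrt m +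
      τ ^ 2 * ∑ m ∈ Finset.Icc 1 m₀, s m ^ 2 * m) (hbig : 400 * Kc ≤ N ^ (1 / 20 : ℝ)) :
    400 * T ^ 2 * (E / N) * (|-τ| * ∑ m ∈ Finset.Icc 1 m₀, |s m| * |V m| * Real.sqrt m +
      (-τ) ^ 2 * ∑ m ∈ Finset.Icc 1 m₀, s m ^ 2 * m) ≤ 1 := by
  have hN0 : 0 < N := by linarith
  obtain ⟨r, hr⟩ : ∃ r : ℝ, r = N ^ (1 / 20 : ℝ) := ⟨_, rfl⟩
  rw [← hr] at hV hbig
  have hr1 : 1 ≤ r := by rw [hr]; exact Real.one_le_rpow hN (by norm_num)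
  have h1 : N ^ (9 / 10 : ℝ) * r ^ 2 = N := by
    rw [hr, ← Real.rpow_natCast, ← Real.rpow_mul hN0.le, ← Real.rpow_add hN0]
    norm_num
  have h2 : T ^ 2 * (E / N) * r ^ 2 ≤ 1 := by
    have h3 : T ^ 2 * (E / N) * r ^ 2 = T ^ 2 * E * r ^ 2 / N := by ring
    rw [h3, div_le_one hN0]
    calc T ^ 2 * E * r ^ 2 ≤ N ^ (9 / 10 : ℝ) * r ^ 2 :=
          mul_le_mul_of_nonneg_right hTE (sq_nonneg r)
      _ = N := h1
  have h4 : |-τ| * ∑ m ∈ Finset.Icc 1 m₀, |s m| * |V m| * Real.sqrt m +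
      (-τ) ^ 2 * ∑ m ∈ Finset.Icc 1 m₀, s m ^ 2 * m ≤ r * Kc := by
    rw [abs_neg, abs_of_nonneg hτ, neg_sq]
    have h5 : ∑ m ∈ Finset.Icc 1 m₀, |s m| * |V m| * Real.sqrt m ≤
        r * ∑ m ∈ Finset.Icc 1 m₀, |s m| * Real.sqrt m := by
      rw [Finset.mul_sum]
      refine Finset.sum_le_sum fun m _ => ?_
      by_cases h : s m = 0
      · rw [h]; simp
      · have h6 := hV m h
        calc |s m| * |V m| * Real.sqrt m ≤ |s m| * r * Real.sqrt m := by gcongr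
          _ = _ := by ring
    have h6 : 0 ≤ ∑ m ∈ Finset.Icc 1 m₀, s m ^ 2 * m :=
      Finset.sum_nonneg fun m _ => by positivity
    have h7 : τ * ∑ m ∈ Finset.Icc 1 m₀, |s m| * |V m| * Real.sqrt m ≤
        τ * (r * ∑ m ∈ Finset.Icc 1 m₀, |s m| * Real.sqrt m) := mul_le_mul_of_nonneg_left h5 hτ
    have h8 : τ ^ 2 * ∑ m ∈ Finset.Icc 1 m₀, s m ^ 2 * m ≤
        r * (τ ^ 2 * ∑ m ∈ Finset.Icc 1 m₀, s m ^ 2 * m) :=
      le_mul_of_one_le_left (by positivity) hr1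
    rw [hKc]
    linarith
  have h9 : 0 ≤ T ^ 2 * (E / N) := by positivity
  calc 400 * T ^ 2 * (E / N) * (|-τ| * ∑ m ∈ Finset.Icc 1 m₀, |s m| * |V m| * Real.sqrt m +
      (-τ) ^ 2 * ∑ m ∈ Finset.Icc 1 m₀, s m ^ 2 * m) ≤ 400 * T ^ 2 * (E / N) * (r * Kc) :=
        mul_le_mul_of_nonneg_left h4 (by linarith)
    _ = T ^ 2 * (E / N) * r * (400 * Kc) := by ring
    _ ≤ T ^ 2 * (E / N) * r * r := mul_le_mul_of_nonneg_left hbig (by positivity)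
    _ = T ^ 2 * (E / N) * r ^ 2 := by ring
    _ ≤ 1 := h2

/-- removing the forms where the test polynomial is small -/
theorem ex_small {ι : Type} [Fintype ι] (o S : ι → ℝ) (ho : ∀ i, 0 ≤ o i) {σ M v : ℝ}
    (hM : ∑ i, o i ≤ M) (t : Finset ι) (h : v ≤ ∑ i ∈ t, o i * S i ^ 2) (hσ : 0 ≤ σ)
    [DecidablePred fun i => σ ≤ |S i|] :
    v - M * σ ^ 2 ≤ ∑ i ∈ t.filter (fun i => σ ≤ |S i|), o i * S i ^ 2 := by
  have h1 := Finset.sum_filter_add_sum_filter_not t (fun i => σ ≤ |S i|) (fun i => o i * S i ^ 2)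
  have h2 : ∑ i ∈ t.filter (fun i => ¬ σ ≤ |S i|), o i * S i ^ 2 ≤ M * σ ^ 2 := by
    calc ∑ i ∈ t.filter (fun i => ¬ σ ≤ |S i|), o i * S i ^ 2
        ≤ ∑ i ∈ t.filter (fun i => ¬ σ ≤ |S i|), o i * σ ^ 2 := by
          refine Finset.sum_le_sum fun i hi => mul_le_mul_of_nonneg_left ?_ (ho i)
          rw [Finset.mem_filter] at hi
          rw [← sq_abs]
          exact pow_le_pow_left₀ (abs_nonneg _) (not_le.mp hi.2).le 2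
      _ = (∑ i ∈ t.filter (fun i => ¬ σ ≤ |S i|), o i) * σ ^ 2 := by rw [Finset.sum_mul]
      _ ≤ M * σ ^ 2 := by
          refine mul_le_mul_of_nonneg_right (le_trans ?_ hM) (sq_nonneg σ)
          exact Finset.sum_le_sum_of_subset_of_nonneg (Finset.subset_univ _) fun i _ _ => ho i
  linarith

/-- **part F**, harmonic average -/
theorem ex_harm {q : ℝ} (hq1 : 1 / 2 ≤ q) (hq2 : q ≤ 1) (A : Finset ℕ) (c : ℕ → ℝ)
    (hA : ∀ a ∈ A, 1 ≤ a) (hc : ∀ a, 0 ≤ c a) {ε : ℝ} (hε : 0 < ε) :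
    ∃ (m₀ : ℕ) (s : ℕ → ℝ) (e κ : ℝ) (N₀ : ℕ), 1 ≤ m₀ ∧ (∀ m, s m ≠ 0 → 1 ≤ m ∧ m ≤ m₀) ∧
      0 < e ∧ 0 < κ ∧ ∀ (N : ℕ) [Fact N.Prime], N₀ ≤ N →
      ∀ (T : ℝ) (ρ : ℝ → ℝ) (B₀ E : ℕ) (x : ℕ → ℝ), ExVec q m₀ s e N T ρ B₀ E x →
      ∀ {ι : Type} [Fintype ι] (f : ι → S2 N), AllNew f → ∃ t : Finset ι,
        (∀ i ∈ t, co (f i) N = 1 ∧
          κ ≤ ‖Lh (f i)‖ * Real.sqrt (∑ n ∈ Finset.Icc 1 E, x n ^ 2 / n + 1)) ∧
        1 / 2 * (q * ∑ a ∈ A, c a) - ε ≤ ∑ i ∈ t, om (f i) * Hd A c (la (f i)) := by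
  classical
  have h2q0 : 0 ≤ 2 / q := by positivity
  have h2q : 2 / q ≤ 4 := by
    rw [div_le_iff₀ (by linarith)]
    linarith
  obtain ⟨h₀, hh₀⟩ : ∃ h₀ : ℝ, h₀ = ∑ a ∈ A, c a := ⟨_, rfl⟩
  have hh0 : 0 ≤ h₀ := by rw [hh₀]; exact Finset.sum_nonneg fun a _ => hc a
  obtain ⟨B, hB⟩ : ∃ B : ℝ, B = h₀ + 1 := ⟨_, rfl⟩
  have hB1 : 1 ≤ B := by linarith
  -- small parameters
  obtain ⟨ε', hε0, hεε, hε1⟩ : ∃ ε' : ℝ, 0 < ε' ∧ ε' ≤ ε / 8 ∧ ε' ≤ 1 :=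
    ⟨min ε 1 / 8, by positivity, by have := min_le_left ε 1; linarith,
      by have := min_le_right ε 1; linarith⟩
  obtain ⟨e, he0, hse⟩ : ∃ e : ℝ, 0 < e ∧ Real.sqrt e = ε' / (400 * B) :=
    ⟨(ε' / (400 * B)) ^ 2, by positivity, Real.sqrt_sq (by positivity)⟩
  have hse1 : Real.sqrt e ≤ 1 := by
    rw [hse, div_le_one (by positivity)]
    linarith
  have he1 : e ≤ 1 := by
    have h2 : e = Real.sqrt e ^ 2 := (Real.sq_sqrt he0.le).symm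
    rw [h2]
    exact pow_le_one₀ (Real.sqrt_nonneg _) hse1
  obtain ⟨κ', hκ'0, hκ'⟩ : ∃ κ' : ℝ, 0 < κ' ∧ κ' ≤ ε' / (16 * B) :=
    ⟨ε' / (16 * B), by positivity, le_rfl⟩
  obtain ⟨τ, hτ0, hτ⟩ : ∃ τ : ℝ, 0 < τ ∧ (4 * B + 2) / (2 * τ) ≤ e / 8 := by
    refine ⟨4 * (4 * B + 2) / e, by positivity, le_of_eq ?_⟩
    field_simp
    norm_num
  obtain ⟨d, hd0, hdτ, hdε⟩ : ∃ d : ℝ, 0 < d ∧ τ * d / 2 ≤ e / 8 ∧ d ≤ ε' := by
    refine ⟨min (e / (4 * τ)) ε', lt_min (by positivity) hε0, ?_, min_le_right _ _⟩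
    have h2 := mul_le_mul_of_nonneg_left (min_le_left (e / (4 * τ)) ε') hτ0.le
    have h3 : τ * (e / (4 * τ)) = e / 4 := by field_simp
    rw [h3] at h2
    linarith
  obtain ⟨I, m₀, s, hIp, hm₀, hs, hsd, C₄, N₁, hC₄, hpoly⟩ := poly_data A c hA hc hd0
  rw [← hh₀] at hsd
  obtain ⟨x, hx⟩ : ∃ x : ℝ, x = ∑ m ∈ Finset.Icc 1 m₀, s m ^ 2 := ⟨_, rfl⟩
  have hx0 : 0 ≤ x := by rw [hx]; exact Finset.sum_nonneg fun m _ => sq_nonneg _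
  rw [← hx] at hsd
  have hxB : x ≤ B := by
    have := (abs_le.mp hsd).2
    linarith
  -- typical sizes
  obtain ⟨et, het0, het⟩ : ∃ et : ℝ, 0 < et ∧ Real.sqrt (et * C₄) ≤ ε' := by
    refine ⟨ε' ^ 2 / (C₄ + 1), by positivity, ?_⟩
    apply Real.sqrt_le_iff.mpr
    refine ⟨hε0.le, ?_⟩
    have h2 : ε' ^ 2 / (C₄ + 1) * C₄ = ε' ^ 2 * (C₄ / (C₄ + 1)) := by
      field_simp
    rw [h2]
    have h3 : C₄ / (C₄ + 1) ≤ 1 := by
      rw [div_le_one (by positivity)]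
      linarith
    calc ε' ^ 2 * (C₄ / (C₄ + 1)) ≤ ε' ^ 2 * 1 := by gcongr
      _ = ε' ^ 2 := mul_one _
  obtain ⟨σ, hσ0, hσ⟩ : ∃ σ : ℝ, 0 < σ ∧ 2 * σ ^ 2 ≤ ε' := by
    refine ⟨Real.sqrt (ε' / 2), Real.sqrt_pos.mpr (by positivity), le_of_eq ?_⟩
    rw [Real.sq_sqrt (by positivity)]
    ring
  obtain ⟨Kw, hKw0, hKw⟩ : ∃ Kw : ℝ, 0 < Kw ∧ 2 / Kw ≤ et :=
    ⟨2 / et, by positivity, le_of_eq (by field_simp)⟩
  -- sizes
  obtain ⟨Kc, hKc⟩ : ∃ Kc : ℝ, Kc = τ * ∑ m ∈ Finset.Icc 1 m₀, |s m| * Real.sqrt m +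
      τ ^ 2 * ∑ m ∈ Finset.Icc 1 m₀, s m ^ 2 * m := ⟨_, rfl⟩
  obtain ⟨N₂, hN₂⟩ := ex_pow (400 * Kc) (b := 1 / 20) (by norm_num)
  obtain ⟨N₃, hN₃⟩ := ex_pow (400 * m₀ + 10000) (b := 1 / 10) (by norm_num)
  refine ⟨m₀, s, e / 4, κ' * σ / Real.sqrt Kw, N₁ + N₂ + N₃ + 10000, hm₀,
    fun m hm => ⟨(hs m hm).1, (hs m hm).2.1⟩, by positivity, by positivity,
    fun N _ hN T ρ B₀ E xv hv ι _ f hf => ?_⟩
  have hNp : N.Prime := Fact.out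
  obtain ⟨hρ, hB₀, hE1, hsupp, hzero, hTE, hWW, hlin, hQN⟩ := hv
  have hT : 1 ≤ T := hρ.T1
  obtain ⟨W, hW⟩ : ∃ W : ℝ, W = ∑ n ∈ Finset.Icc 1 E, xv n ^ 2 / n := ⟨_, rfl⟩
  have hNr : (10000 : ℝ) ≤ N := by exact_mod_cast (by omega : 10000 ≤ N)
  have hN0 : (0 : ℝ) < N := by linarith
  have hi : Function.Injective f := hf.1
  have hn : ∀ i, IsNew (f i) := fun i => (hf.2 (f i)).mpr ⟨i, rfl⟩
  have hom : ∀ i, 0 ≤ om (f i) := fun i => (fid_om (hn i)).2.1.le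
  have hE0 : (0 : ℝ) ≤ E := Nat.cast_nonneg E
  -- the length
  have hpw : (N : ℝ) ^ (9 / 10 : ℝ) * (N : ℝ) ^ (1 / 10 : ℝ) = N := by
    rw [← Real.rpow_add hN0]
    norm_num
  have hN3 := hN₃ N (by omega)
  have hT2 : (1 : ℝ) ≤ T ^ 2 := by nlinarith
  have hlen1 : 400 * T ^ 2 * m₀ * E ≤ N := by
    have h2 : (0 : ℝ) ≤ m₀ := Nat.cast_nonneg m₀
    calc 400 * T ^ 2 * m₀ * E = (T ^ 2 * E) * (400 * m₀) := by ring
      _ ≤ (N : ℝ) ^ (9 / 10 : ℝ) * (N : ℝ) ^ (1 / 10 : ℝ) :=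
          mul_le_mul hTE (by linarith) (by positivity) (by positivity)
      _ = N := hpw
  have hlen2 : (E : ℝ) ≤ (1 / 100) ^ 2 * N := by
    have h2 : (E : ℝ) * 10000 ≤ N := by
      calc (E : ℝ) * 10000 ≤ (T ^ 2 * E) * 10000 := by
            refine mul_le_mul_of_nonneg_right ?_ (by norm_num)
            exact le_mul_of_one_le_left hE0 (by linarith)
        _ ≤ (N : ℝ) ^ (9 / 10 : ℝ) * (N : ℝ) ^ (1 / 10 : ℝ) := by
            refine mul_le_mul hTE ?_ (by norm_num) (by positivity)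
            have h2 : (0 : ℝ) ≤ m₀ := Nat.cast_nonneg m₀
            linarith
        _ = N := hpw
    linarith
  -- the dual norm
  have hgeo' := geo_poly hρ hB₀ N E m₀ hE1 hm₀ hlen1 xv hsupp hzero f hi hn s
    (fun m hm => ⟨(hs m hm).1, (hs m hm).2.1⟩)
  obtain ⟨F, hF⟩ : ∃ F : ι → ℝ, F = fun i => (Lh (f i)).re * MX E xv (la (f i)) := ⟨_, rfl⟩
  obtain ⟨S, hS⟩ : ∃ S : ι → ℝ, S = fun i => ∑ m ∈ Finset.Icc 1 m₀, s m * Um m (la (f i)) :=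
    ⟨_, rfl⟩
  obtain ⟨hp1, hp2, hp3, hp4⟩ := hpoly N (by omega) f hf
  have hSi : ∀ i, ∑ m ∈ Finset.Icc 1 m₀, s m * Um m (la (f i)) = S i := fun i => by rw [hS]
  have hFi : ∀ i, (Lh (f i)).re * MX E xv (la (f i)) = F i := fun i => by rw [hF]
  simp only [hSi] at hp1 hp2 hp3 hp4
  simp only [hSi, hFi] at hgeo'
  rw [← hx] at hp2 hp3 hQN hlin
  have h2nd : ∑ i, om (f i) * F i ^ 2 ≤ 2 / q * x + e := by
    have h2 := hgeo' 0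
    simp only [zero_mul, add_zero, abs_zero, mul_zero, ne_eq, OfNat.ofNat_ne_zero,
      not_false_eq_true, zero_pow] at h2
    linarith
  have h1st : x - e ≤ ∑ i, om (f i) * (F i * S i) := by
    have h2 := hgeo' (-τ)
    rw [← hx] at h2
    have h3 := ex_err (m₀ := m₀) (s := s) (V := fun m => WW E (wX E xv) m) (T := T)
      (E := (E : ℝ)) (N := (N : ℝ)) hτ0.le (by linarith) hE0 hTE
      (fun m hm => hWW m (hs m hm).1 (hs m hm).2.1) hKc (hN₂ N (by omega))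
    have h4 := hm_first (fun i => om (f i)) F S hom (Q := 2 / q * x + e / 4)
      (l := ∑ m ∈ Finset.Icc 1 m₀, s m * WW E (wX E xv) m / Real.sqrt m) (s₂ := x) (e := 1)
      (dd := d) hτ0 (by
        refine h2.trans ?_
        have h5 := add_le_add hQN h3
        linarith) hp2
    have h5 : (2 / q * x + e / 4 + 1) / (2 * τ) ≤ e / 8 := by
      refine le_trans ?_ hτ
      apply div_le_div_of_nonneg_right _ (by positivity)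
      have h6 : 2 / q * x ≤ 4 * B := mul_le_mul h2q hxB hx0 (by norm_num)
      linarith
    linarith
  obtain ⟨t, ht, htS⟩ := cr_core (fun i => om (f i)) F S hom (q := q) (x := x) (e := e) (B := B)
    (ε := ε') (b := 2 / q) (κ := κ') (cn := x) hq1 hq2 hx0 hxB hB1 hε0 hε1 he0 hse.le h2q0
    (by linarith) hκ'0 hκ' (by have := Real.sqrt_nonneg e; linarith) hx0 h1st h2nd hp3
  -- atypical forms
  have hmass : ∑ i, om (f i) ≤ 2 := hp_mass hNr f hi hn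
  have htS1 := ex_small (fun i => om (f i)) S hom hmass t htS hσ0.le
  have hM2 := mx_sq f hi hn hE1 hlen2 hsupp
  rw [← hW] at hM2 ⊢
  have hW0 : 0 ≤ W := by rw [hW]; exact Finset.sum_nonneg fun n _ => by positivity
  obtain ⟨u, hu⟩ : ∃ u : Finset ι, u = Finset.univ.filter
    (fun i => Kw * (W + 1) < MX E xv (la (f i)) ^ 2) := ⟨_, rfl⟩
  have hb3 : ∑ i ∈ u, om (f i) ≤ et := by
    have h2 := HAR_cheb (fun i => om (f i)) (fun i => MX E xv (la (f i)) ^ 2) hom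
      (fun i => sq_nonneg _) (t := Kw * (W + 1)) (M := 2 * (W + 1)) (by positivity)
      (hM2.trans (by linarith)) u (fun i hi' => by
        rw [hu, Finset.mem_filter] at hi'
        exact hi'.2.le)
    refine h2.trans (le_trans (le_of_eq ?_) hKw)
    have h3 : W + 1 ≠ 0 := by positivity
    field_simp
  have hfin := cr_fin (fun i => om (f i)) S (fun i => Hd A c (la (f i))) hom
    (fun i => Finset.sum_nonneg fun a _ => mul_nonneg (hc a) (sq_nonneg _)) (d := ε')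
    (e := et) (C := C₄) het0.le (hp1.trans hdε) hp4 (t.filter (fun i => σ ≤ |S i|)) u hb3 htS1 het
  refine ⟨t.filter (fun i => σ ≤ |S i|) \ u, ?_, ?_⟩
  · intro i hi'
    rw [Finset.mem_sdiff, Finset.mem_filter] at hi'
    obtain ⟨⟨hit, hiS⟩, hiu⟩ := hi'
    obtain ⟨h2, h3⟩ := ht i hit
    have hS0 : 0 < |S i| := abs_pos.mpr h3
    have hF0 : F i ≠ 0 := by
      intro h4
      rw [h4, abs_zero] at h2
      have := mul_pos hκ'0 hS0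
      linarith
    have hco : co (f i) N = 1 := by
      by_contra h4
      apply hF0
      rw [← hFi, lh_odd (hn i) h4]
      simp
    refine ⟨hco, ?_⟩
    have h4 : MX E xv (la (f i)) ^ 2 ≤ Kw * (W + 1) := by
      by_contra h
      push Not at h
      exact hiu (by rw [hu, Finset.mem_filter]; exact ⟨Finset.mem_univ _, h⟩)
    have h5 : |MX E xv (la (f i))| ≤ Real.sqrt Kw * Real.sqrt (W + 1) := by
      rw [← Real.sqrt_mul hKw0.le]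
      exact Real.abs_le_sqrt h4
    have h6 : |F i| = |(Lh (f i)).re| * |MX E xv (la (f i))| := by
      rw [← hFi, abs_mul]
    have h7 : κ' * σ ≤ ‖Lh (f i)‖ * (Real.sqrt Kw * Real.sqrt (W + 1)) := by
      calc κ' * σ ≤ κ' * |S i| := mul_le_mul_of_nonneg_left hiS hκ'0.le
        _ ≤ |F i| := h2
        _ = |(Lh (f i)).re| * |MX E xv (la (f i))| := h6
        _ ≤ _ := mul_le_mul (Complex.abs_re_le_norm _) h5 (abs_nonneg _) (norm_nonneg _)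
    have hK0 : 0 < Real.sqrt Kw := Real.sqrt_pos.mpr hKw0
    rw [div_le_iff₀ hK0]
    calc κ' * σ ≤ ‖Lh (f i)‖ * (Real.sqrt Kw * Real.sqrt (W + 1)) := h7
      _ = _ := by ring
  · have h2 := (abs_le.mp hsd).1
    have h3 : q * h₀ - q * x ≤ ε' := by
      have h4 : h₀ - x ≤ ε' := by linarith
      have h5 : q * (h₀ - x) ≤ ε' := by
        by_cases h6 : 0 ≤ h₀ - x
        · calc q * (h₀ - x) ≤ 1 * (h₀ - x) := mul_le_mul_of_nonneg_right hq2 h6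
            _ ≤ ε' := by linarith
        · push Not at h6
          have : q * (h₀ - x) ≤ 0 := mul_nonpos_of_nonneg_of_nonpos (by linarith) h6.le
          linarith
      linarith
    rw [← hh₀]
    linarith

/-- **part F**: the counting -/
theorem ex_nat {q : ℝ} (hq1 : 1 / 2 ≤ q) (hq2 : q ≤ 1) {δ : ℝ} (hδ : 0 < δ) :
    ∃ (m₀ : ℕ) (s : ℕ → ℝ) (e κ : ℝ) (N₀ : ℕ), 1 ≤ m₀ ∧ (∀ m, s m ≠ 0 → 1 ≤ m ∧ m ≤ m₀) ∧
      0 < e ∧ 0 < κ ∧ ∀ (N : ℕ) [Fact N.Prime], N₀ ≤ N →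
      ∀ (T : ℝ) (ρ : ℝ → ℝ) (B₀ E : ℕ) (x : ℕ → ℝ), ExVec q m₀ s e N T ρ B₀ E x →
      (q - δ) * (N / 24) ≤ ({f : S2 N | (IsNew f ∧ co f N = 1) ∧
        κ ≤ ‖Lh f‖ * Real.sqrt (∑ n ∈ Finset.Icc 1 E, x n ^ 2 / n + 1)}.ncard : ℝ) := by
  obtain ⟨A, w, ε₁, N₀, hA, hw, hε₁, hnat⟩ := nat_gen (q := q) (by linarith) hq2 hδ
  obtain ⟨m₀, s, e, κ, N₁, hm₀, hs, he, hκ, hN₁⟩ := ex_harm hq1 hq2 A w hA hw hε₁
  refine ⟨m₀, s, e, κ, N₀ + N₁, hm₀, hs, he, hκ, fun N _ hN T ρ B₀ E x hv => ?_⟩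
  have h4 := hnat N (by omega)
    (fun f => κ ≤ ‖Lh f‖ * Real.sqrt (∑ n ∈ Finset.Icc 1 E, x n ^ 2 / n + 1))
    (hN₁ N (by omega) T ρ B₀ E x hv)
  calc (q - δ) * ((N : ℝ) / 24) = (N : ℝ) / 24 * (q - δ) := by ring
    _ ≤ _ := h4

/-- **part F** for the nonvanishing -/
theorem ex_level {q : ℝ} (hq1 : 1 / 2 ≤ q) (hq2 : q ≤ 1) {P : ℝ → ℕ → Prop} (hX : ExData q P)
    {δ : ℝ} (hδ : 0 < δ) : ∃ κ₀ : ℝ, 0 < κ₀ ∧ ∀ κ : ℝ, 0 < κ → κ ≤ κ₀ → ∃ N₀ : ℕ,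
      ∀ (N : ℕ) [Fact N.Prime], N₀ ≤ N → P κ N → (q - δ) * (N / 24) ≤
        ({f : S2 N | (IsNew f ∧ co f N = 1) ∧ Lh f ≠ 0}.ncard : ℝ) := by
  obtain ⟨m₀, s, e, κ', N₁, hm₀, hs, he, hκ', hN₁⟩ := ex_nat hq1 hq2 hδ
  obtain ⟨κ₀, hκ₀, hκ⟩ := hX m₀ s hm₀ hs e he
  refine ⟨κ₀, hκ₀, fun κ hκ1 hκ2 => ?_⟩
  obtain ⟨N₂, hN₂⟩ := hκ κ hκ1 hκ2
  refine ⟨N₁ + N₂, fun N _ hN hP => ?_⟩
  obtain ⟨T, ρ, B₀, E, x, hv⟩ := hN₂ N (by omega) Fact.out hP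
  refine (hN₁ N (by omega) T ρ B₀ E x hv).trans ?_
  obtain ⟨_, _, hnf⟩ := new_fin
  have hF : {f : S2 N | IsNew f}.Finite := (hnf N).1
  have hsub : {f : S2 N | (IsNew f ∧ co f N = 1) ∧
      κ' ≤ ‖Lh f‖ * Real.sqrt (∑ n ∈ Finset.Icc 1 E, x n ^ 2 / n + 1)} ⊆
      {f : S2 N | (IsNew f ∧ co f N = 1) ∧ Lh f ≠ 0} := by
    intro f hf
    refine ⟨hf.1, fun h => ?_⟩
    have h2 := hf.2
    rw [h, norm_zero, zero_mul] at h2
    linarith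
  have hfin : {f : S2 N | (IsNew f ∧ co f N = 1) ∧ Lh f ≠ 0}.Finite :=
    hF.subset fun f hf => hf.1.1
  exact_mod_cast Set.ncard_le_ncard hsub hfin

/-- **part F** for the large values -/
theorem ex_levelB {q : ℝ} (hq1 : 1 / 2 ≤ q) (hq2 : q ≤ 1) {P : ℝ → ℕ → Prop} (hX : ExDataB q P)
    {δ : ℝ} (hδ : 0 < δ) : ∃ (κ₀ : ℝ) (w : ℕ), 0 < κ₀ ∧ ∀ κ : ℝ, 0 < κ → κ ≤ κ₀ → ∃ N₀ : ℕ,
      ∀ (N : ℕ) [Fact N.Prime], N₀ ≤ N → P κ N → (q - δ) * (N / 24) ≤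
        ({f : S2 N | (IsNew f ∧ co f N = 1) ∧ 1 / Real.log N ^ w ≤ ‖Lh f‖}.ncard : ℝ) := by
  obtain ⟨m₀, s, e, κ', N₁, hm₀, hs, he, hκ', hN₁⟩ := ex_nat hq1 hq2 hδ
  obtain ⟨κ₀, w, hκ₀, hκ⟩ := hX m₀ s hm₀ hs e he
  refine ⟨κ₀, w + 1, hκ₀, fun κ hκ1 hκ2 => ?_⟩
  obtain ⟨N₂, hN₂⟩ := hκ κ hκ1 hκ2
  have hl : Tendsto (fun N : ℕ => Real.log (N : ℝ)) atTop atTop :=
    Real.tendsto_log_atTop.comp tendsto_natCast_atTop_atTop
  obtain ⟨N₃, hN₃⟩ := Filter.eventually_atTop.mp (hl.eventually_ge_atTop (max 1 (2 / κ')))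
  refine ⟨N₁ + N₂ + N₃, fun N _ hN hP => ?_⟩
  obtain ⟨T, ρ, B₀, E, x, hv, hx⟩ := hN₂ N (by omega) Fact.out hP
  refine (hN₁ N (by omega) T ρ B₀ E x hv).trans ?_
  obtain ⟨_, _, hnf⟩ := new_fin
  have hF : {f : S2 N | IsNew f}.Finite := (hnf N).1
  have hl1 := hN₃ N (by omega)
  obtain ⟨L, hL⟩ : ∃ L : ℝ, L = Real.log N := ⟨_, rfl⟩
  rw [← hL] at hl1 hx
  have hL1 : 1 ≤ L := (le_max_left _ _).trans hl1
  have hL2 : 2 / κ' ≤ L := (le_max_right _ _).trans hl1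
  have hx0 : 0 ≤ ∑ n ∈ Finset.Icc 1 E, x n ^ 2 / n := Finset.sum_nonneg fun n _ => by positivity
  have hLw : 1 ≤ L ^ w := one_le_pow₀ hL1
  have h1 : Real.sqrt (∑ n ∈ Finset.Icc 1 E, x n ^ 2 / n + 1) ≤ 2 * L ^ w := by
    apply Real.sqrt_le_iff.mpr
    refine ⟨by positivity, ?_⟩
    nlinarith
  have hsub : {f : S2 N | (IsNew f ∧ co f N = 1) ∧
      κ' ≤ ‖Lh f‖ * Real.sqrt (∑ n ∈ Finset.Icc 1 E, x n ^ 2 / n + 1)} ⊆
      {f : S2 N | (IsNew f ∧ co f N = 1) ∧ 1 / Real.log N ^ (w + 1) ≤ ‖Lh f‖} := by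
    intro f hf
    refine ⟨hf.1, ?_⟩
    have h2 : κ' ≤ ‖Lh f‖ * (2 * L ^ w) :=
      hf.2.trans (mul_le_mul_of_nonneg_left h1 (norm_nonneg _))
    rw [← hL, div_le_iff₀ (by positivity)]
    have h3 : 2 ≤ L * κ' := by
      rw [div_le_iff₀ hκ'] at hL2
      exact hL2
    have h4 : L * κ' ≤ L * (‖Lh f‖ * (2 * L ^ w)) := mul_le_mul_of_nonneg_left h2 (by linarith)
    calc (1 : ℝ) ≤ 1 / 2 * (L * (‖Lh f‖ * (2 * L ^ w))) := by linarith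
      _ = ‖Lh f‖ * L ^ (w + 1) := by ring
  have hfin : {f : S2 N | (IsNew f ∧ co f N = 1) ∧
      1 / Real.log N ^ (w + 1) ≤ ‖Lh f‖}.Finite := hF.subset fun f hf => hf.1.1
  exact_mod_cast Set.ncard_le_ncard hsub hfin

end Pool.Agent.LSP
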