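import Pool.Agent.Lib_helper71.LSP3.AS7

/-! LSP3, assembly: class plus. -/

set_option autoImplicit false

namespace Pool.Agent.LX

open Complex MeasureTheory Set Filter Topology
open Pool.Agent.LSP (tau MX sg1 wX QN KerL ExVec ExData ExZ)
open Pool.Agent.KSL (WW)
open Pool.Agent.LEV (Um)
open Pool.Agent.LVB (IsST)
open Pool.Agent.LK (V KerC PQ)
open Pool.Agent.LE
open Pool.Agent.LG (Par Ai J3)
open Pool.Agent.LM (cv Pz)

/-- class `χ(-N) = 1` -/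
theorem plus_main (hG : GramS) (h2 : X2S) (h4 : X4S) {m₀ : ℕ} (hm₀ : 1 ≤ m₀) {s : ℕ → ℝ}
    (hs : SuppIn m₀ s) (hσ : 0 < ∑ m ∈ Finset.Icc 1 m₀, s m ^ 2) {e : ℝ} (he : 0 < e) :
    ∃ (κ₀ c C : ℝ) (A : ℕ) (N₀ : ℕ), 0 < κ₀ ∧ 0 < c ∧ 0 < C ∧ ∀ N : ℕ, N₀ ≤ N → N.Prime →
      ∀ (q : ℕ) [NeZero q] (χ : DirichletCharacter ℂ q) (β : ℝ), Ex κ₀ N χ β →
      χ (-(N : ZMod q)) = (-1) ^ 0 → ∃ (K : ℕ) (b θ : ℕ → ℝ) (ρ : ℝ → ℝ) (B₀ : ℕ),
        ExVec (3 / 5) m₀ s e N ((N : ℝ) ^ nu) ρ B₀ (Aa q N * K ^ 2) (xx χ {0, 2} θ N K b) ∧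
        SuppIn K b ∧ 1 ≤ K ∧ (∀ k, |b k| ≤ C * Real.log N ^ A * tau k ^ A) ∧
        |θ 2| ≤ C ∧ |θ 0| * (1 - β) ≤ C ∧ (K : ℝ) ≤ (N : ℝ) ^ dl ∧ (q : ℝ) ≤ (N : ℝ) ^ dl := by
  obtain ⟨σ, hσd⟩ : ∃ σ : ℝ, σ = ∑ m ∈ Finset.Icc 1 m₀, s m ^ 2 := ⟨_, rfl⟩
  have hσ0 : 0 < σ := by rw [hσd]; exact hσ
  obtain ⟨η, hη0, hη1, hησ⟩ : ∃ η : ℝ, 0 < η ∧ η ≤ 1 ∧ η * σ ≤ e / 20 := by
    refine ⟨min 1 (e / 20 / σ), by positivity, min_le_left _ _, ?_⟩
    calc min 1 (e / 20 / σ) * σ ≤ e / 20 / σ * σ :=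
          mul_le_mul_of_nonneg_right (min_le_right _ _) hσ0.le
      _ = e / 20 := by field_simp
  obtain ⟨κ₀, c, C, A, N₁, hκ₀, hc, hC, hdat⟩ := dat_exists hG h2 h4 hm₀ hs hσ hη0
  obtain ⟨N₂, hN₂⟩ := vec_exists {0, 2} hm₀ hs he (3 / 5) η c C A
  obtain ⟨N₃, hN₃⟩ := as_grow (2 * σ / (c * c)) 0 dl_pos
  obtain ⟨N₄, hN₄⟩ := as_grow (σ / (c * c * c)) 0 (a := dl / 2) (by have := dl_pos; positivity)
  have hl : Tendsto (fun N : ℕ => Real.log (N : ℝ)) atTop atTop :=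
    Real.tendsto_log_atTop.comp tendsto_natCast_atTop_atTop
  obtain ⟨N₅, hN₅⟩ := Filter.eventually_atTop.mp (hl.eventually_ge_atTop 1)
  refine ⟨κ₀, c, C + 2 * σ / (c * c), A, N₁ + N₂ + N₃ + N₄ + N₅ + 3, hκ₀, hc, by positivity,
    fun N hN hNp q _ χ β hE hpar => ?_⟩
  obtain ⟨I, P, K, b, F₁, F₂, hD⟩ := hdat N (by omega) q χ β hE
  have hN1 : (1 : ℝ) < N := by exact_mod_cast (by omega : 1 < N)
  have hN0 : (0 : ℝ) < N := by linarith
  have hF1 : 0 < F₁ := hc.trans_le hD.F1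
  have hg : 0 < gz χ β := hc.trans_le hD.g_ge
  obtain ⟨L, hL⟩ : ∃ L : ℝ, L = Real.log N := ⟨_, rfl⟩
  have hL1 : 1 ≤ L := by rw [hL]; exact hN₅ N (by omega)
  obtain ⟨d, hd⟩ : ∃ d : ℝ, d = 1 - β := ⟨_, rfl⟩
  have hd0 : 0 < d := by rw [hd]; have := hE.lt1; linarith
  obtain ⟨G, hGd⟩ : ∃ G : ℝ, G = gz χ β * F₁ := ⟨_, rfl⟩
  have hG0 : 0 < G := by rw [hGd]; positivity
  have hGc : c * c ≤ G := by
    rw [hGd]
    exact mul_le_mul hD.g_ge hD.F1 hc.le hg.le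
  obtain ⟨M, hMd⟩ : ∃ M : ℝ, M = Mm χ β F₂ := ⟨_, rfl⟩
  obtain ⟨j22, j20, j02, j00, r2, r0, hfin, hdge⟩ :
      |(JJ χ P I (K * K) (HP K b b) 2 2 N).re - L ^ 2 * M| ≤ η * (L ^ 2 * M) ∧
      |(JJ χ P I (K * K) (HP K b b) 2 0 N).re - d * L * M| ≤ η * (d * L * M) ∧
      |(JJ χ P I (K * K) (HP K b b) 0 2 N).re - d * L * M| ≤ η * (d * L * M) ∧
      |(JJ χ P I (K * K) (HP K b b) 0 0 N).re - 6 * d ^ 2 * M| ≤ η * (d ^ 2 * M) ∧
      |(RR χ P I (K * m₀) (HP (K * m₀) b (vS s)) 2 N).re - L / 2 * G| ≤ η * (L * G) ∧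
      |(RR χ P I (K * m₀) (HP (K * m₀) b (vS s)) 0 N).re - d * G| ≤ η * (d * G) ∧
      M * σ ≤ (1 + η) * G ^ 2 ∧ c * (N : ℝ) ^ (-(dl / 2)) ≤ d := by
    rw [hL, hd, hGd, hMd, hσd]
    exact ⟨hD.j22, hD.j20, hD.j02, hD.j00, hD.r2, hD.r0, hD.fin, hD.d_ge⟩
  obtain ⟨a, ha⟩ : ∃ a : ℝ, a = σ / G := ⟨_, rfl⟩
  have ha0 : 0 < a := by rw [ha]; positivity
  have haG : a * G = σ := by rw [ha]; field_simp
  have hac : a ≤ σ / (c * c) := by
    rw [ha]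
    gcongr
  have haM : a ^ 2 * M ≤ σ * (1 + η) := by
    rw [ha, div_pow, div_mul_eq_mul_div, div_le_iff₀ (by positivity)]
    calc σ ^ 2 * M = σ * (M * σ) := by ring
      _ ≤ σ * ((1 + η) * G ^ 2) := mul_le_mul_of_nonneg_left hfin hσ0.le
      _ = σ * (1 + η) * G ^ 2 := by ring
  -- the coefficients
  obtain ⟨θ, hθ0, hθ2⟩ : ∃ θ : ℕ → ℝ, θ 0 = a / (3 * d) ∧ θ 2 = 4 * a / (3 * L) :=
    ⟨fun i => if i = 0 then a / (3 * d) else 4 * a / (3 * L), by simp, by simp⟩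
  have hθ0p : 0 < θ 0 := by rw [hθ0]; positivity
  have hθ2p : 0 < θ 2 := by rw [hθ2]; positivity
  have hθd : θ 0 * d = a / 3 := by rw [hθ0]; field_simp
  have hθL : θ 2 * L = 4 * a / 3 := by rw [hθ2]; field_simp
  have hsum : ∀ f : ℕ → ℝ, ∑ i ∈ ({0, 2} : Finset ℕ), f i = f 0 + f 2 := fun f => by
    rw [Finset.sum_insert (by simp), Finset.sum_singleton]
  have hθ2c : θ 2 ≤ 2 * σ / (c * c) := by
    rw [hθ2, div_le_iff₀ (by positivity)]
    have h1 : 4 * a ≤ 4 * (σ / (c * c)) := by linarith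
    have h3 : 0 < σ / (c * c) := by positivity
    calc 4 * a ≤ 4 * (σ / (c * c)) := h1
      _ = 4 * (σ / (c * c)) * 1 := (mul_one _).symm
      _ ≤ 6 * (σ / (c * c)) * L := mul_le_mul (by linarith) hL1 zero_le_one (by positivity)
      _ = 2 * (σ / (c * c)) * (3 * L) := by ring
      _ = 2 * σ / (c * c) * (3 * L) := by ring
  have hθN : ∀ i ∈ ({0, 2} : Finset ℕ), |θ i| ≤ (N : ℝ) ^ dl := by
    intro i hi
    rw [Finset.mem_insert, Finset.mem_singleton] at hi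
    rcases hi with rfl | rfl
    · rw [abs_of_pos hθ0p, hθ0, div_le_iff₀ (by positivity)]
      have h1 : σ / (c * c * c) ≤ (N : ℝ) ^ (dl / 2) := by simpa using hN₄ N (by omega)
      have h3 : (N : ℝ) ^ dl * (N : ℝ) ^ (-(dl / 2)) = (N : ℝ) ^ (dl / 2) := by
        rw [← Real.rpow_add hN0]
        congr 1
        ring
      have h5 : σ / (c * c) ≤ c * (N : ℝ) ^ (dl / 2) := by
        rw [div_le_iff₀ (by positivity)] at h1 ⊢
        linarith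
      calc a ≤ σ / (c * c) := hac
        _ ≤ c * (N : ℝ) ^ (dl / 2) := h5
        _ = (N : ℝ) ^ dl * (c * (N : ℝ) ^ (-(dl / 2))) := by rw [← h3]; ring
        _ ≤ (N : ℝ) ^ dl * d := mul_le_mul_of_nonneg_left hdge (by positivity)
        _ ≤ (N : ℝ) ^ dl * (3 * d) := mul_le_mul_of_nonneg_left (by linarith) (by positivity)
    · rw [abs_of_pos hθ2p]
      exact hθ2c.trans (by simpa using hN₃ N (by omega))
  obtain ⟨ρ, B₀, hv⟩ := hN₂ N (by omega) hNp q χ β I P K b F₁ F₂ hD hE.pq (fun i hi => by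
      rw [Finset.mem_insert, Finset.mem_singleton] at hi
      rcases hi with rfl | rfl
      · exact hpar
      · rw [hpar]; norm_num) θ hθN (by
      rw [hsum, ← hσd]
      have h1 : θ 0 * (d * G - η * (d * G)) ≤
          θ 0 * (RR χ P I (K * m₀) (HP (K * m₀) b (vS s)) 0 N).re :=
        mul_le_mul_of_nonneg_left (by have := (abs_le.mp r0).1; linarith) hθ0p.le
      have h3 : θ 2 * (L / 2 * G - η * (L * G)) ≤
          θ 2 * (RR χ P I (K * m₀) (HP (K * m₀) b (vS s)) 2 N).re :=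
        mul_le_mul_of_nonneg_left (by have := (abs_le.mp r2).1; linarith) hθ2p.le
      have h5 : θ 0 * (d * G - η * (d * G)) = (1 - η) * (σ / 3) := by
        rw [← haG]
        linear_combination (1 - η) * G * hθd
      have h6 : θ 2 * (L / 2 * G - η * (L * G)) = (1 / 2 - η) * (4 * σ / 3) := by
        rw [← haG]
        linear_combination (1 / 2 - η) * G * hθL
      rw [h5] at h1
      rw [h6] at h3
      linarith) (by
      rw [hsum, hsum, hsum, ← hσd]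
      have h1 : θ 0 * θ 0 * (JJ χ P I (K * K) (HP K b b) 0 0 N).re ≤
          θ 0 * θ 0 * (6 * d ^ 2 * M + η * (d ^ 2 * M)) :=
        mul_le_mul_of_nonneg_left (by have := (abs_le.mp j00).2; linarith) (by positivity)
      have h3 : θ 0 * θ 2 * (JJ χ P I (K * K) (HP K b b) 0 2 N).re ≤
          θ 0 * θ 2 * (d * L * M + η * (d * L * M)) :=
        mul_le_mul_of_nonneg_left (by have := (abs_le.mp j02).2; linarith) (by positivity)
      have h5 : θ 2 * θ 0 * (JJ χ P I (K * K) (HP K b b) 2 0 N).re ≤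
          θ 2 * θ 0 * (d * L * M + η * (d * L * M)) :=
        mul_le_mul_of_nonneg_left (by have := (abs_le.mp j20).2; linarith) (by positivity)
      have h6 : θ 2 * θ 2 * (JJ χ P I (K * K) (HP K b b) 2 2 N).re ≤
          θ 2 * θ 2 * (L ^ 2 * M + η * (L ^ 2 * M)) :=
        mul_le_mul_of_nonneg_left (by have := (abs_le.mp j22).2; linarith) (by positivity)
      have e1 : θ 0 * θ 0 * (6 * d ^ 2 * M + η * (d ^ 2 * M)) = (6 + η) / 9 * (a ^ 2 * M) := by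
        have : θ 0 * θ 0 * (6 * d ^ 2 * M + η * (d ^ 2 * M)) = (6 + η) * M * (θ 0 * d) ^ 2 := by
          ring
        rw [this, hθd]
        ring
      have e2 : θ 0 * θ 2 * (d * L * M + η * (d * L * M)) = 4 * (1 + η) / 9 * (a ^ 2 * M) := by
        have : θ 0 * θ 2 * (d * L * M + η * (d * L * M)) = (1 + η) * M * (θ 0 * d) * (θ 2 * L) := by
          ring
        rw [this, hθd, hθL]
        ring
      have e3 : θ 2 * θ 0 * (d * L * M + η * (d * L * M)) = 4 * (1 + η) / 9 * (a ^ 2 * M) := by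
        rw [mul_comm (θ 2), e2]
      have e4 : θ 2 * θ 2 * (L ^ 2 * M + η * (L ^ 2 * M)) = 16 * (1 + η) / 9 * (a ^ 2 * M) := by
        have : θ 2 * θ 2 * (L ^ 2 * M + η * (L ^ 2 * M)) = (1 + η) * M * (θ 2 * L) ^ 2 := by
          ring
        rw [this, hθL]
        ring
      rw [e1] at h1
      rw [e2] at h3
      rw [e3] at h5
      rw [e4] at h6
      have h7 : (10 / 3 + 25 / 9 * η) * (a ^ 2 * M) ≤ (10 / 3 + 25 / 9 * η) * (σ * (1 + η)) :=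
        mul_le_mul_of_nonneg_left haM (by positivity)
      have h8 : (10 / 3 + 25 / 9 * η) * (σ * (1 + η)) ≤ 10 / 3 * σ + 9 * (η * σ) := by
        have h10 := mul_le_mul_of_nonneg_left hη1 (mul_nonneg hη0.le hσ0.le)
        have h11 : 0 ≤ η * σ := mul_nonneg hη0.le hσ0.le
        linarith [show (10 / 3 + 25 / 9 * η) * (σ * (1 + η)) =
          10 / 3 * σ + 55 / 9 * (η * σ) + 25 / 9 * (η * σ * η) by ring]
      have h9 : (2 : ℝ) / (3 / 5) = 10 / 3 := by norm_num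
      rw [h9]
      linarith)
  refine ⟨K, b, θ, ρ, B₀, hv, hD.supp, hD.K1, fun k => (hD.b_tau k).trans ?_, ?_, ?_,
    hD.K_le, hD.q_le⟩
  · have h1 : 0 ≤ tau k := by unfold tau; positivity
    have h3 : 0 ≤ 2 * σ / (c * c) := by positivity
    have h5 : 0 ≤ Real.log N := by rw [← hL]; linarith
    gcongr
    linarith
  · rw [abs_of_pos hθ2p]
    linarith
  · rw [abs_of_pos hθ0p, ← hd, hθd]
    have h3 : 2 * σ / (c * c) = 2 * (σ / (c * c)) := by ring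
    rw [h3]
    linarith

end Pool.Agent.LX
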