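import Pool.Agent.Lib_helper71.LSP3.AS8a
import Pool.Agent.Lib_helper71.LSP3.AS8b

/-! LSP3, assembly: both classes. -/

set_option autoImplicit false

namespace Pool.Agent.LX

open Complex MeasureTheory Set Filter Topology
open Pool.Agent.LSP (tau MX sg1 wX QN KerL ExVec ExData ExZ)
open Pool.Agent.KSL (WW)
open Pool.Agent.LEV (Um)
open Pool.Agent.LVB (IsST)
open Pool.Agent.LK (V KerC PQ)
open Pool.Agent.LE
open Pool.Agent.LG (Par Ai J3)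
open Pool.Agent.LM (cv Pz)

theorem wX_zero (E : ℕ) : wX E (fun _ => 0) = fun _ => 0 := by
  funext n
  unfold wX
  refine Finset.sum_eq_zero fun e _ => ?_
  simp

theorem WW_zero (E n : ℕ) : WW E (fun _ => 0) n = 0 := by
  simp [WW]

theorem QN_zero (ρ : ℝ → ℝ) (T : ℝ) (B E N : ℕ) : QN ρ T B E (fun _ => 0) N = 0 := by
  have h1 : Pool.Agent.LSP.sh ρ T E (fun _ => 0) N = 0 := by
    unfold Pool.Agent.LSP.sh
    rw [wX_zero]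
    simp [WW_zero]
  have h2 : Pool.Agent.LSP.OD ρ B E (fun _ => 0) N = 0 := by
    unfold Pool.Agent.LSP.OD Pool.Agent.LSP.CC
    simp
  unfold QN
  rw [h1, h2, add_zero]

/-- the trivial case -/
theorem vec_zero (q' : ℝ) {m₀ : ℕ} {s : ℕ → ℝ} (hs : SuppIn m₀ s)
    (hσ : ∑ m ∈ Finset.Icc 1 m₀, s m ^ 2 = 0) {e : ℝ} (he : 0 < e) : ∃ N₀ : ℕ, ∀ N : ℕ, N₀ ≤ N →
    ∃ (T : ℝ) (ρ : ℝ → ℝ) (B₀ E : ℕ) (x : ℕ → ℝ), ExVec q' m₀ s e N T ρ B₀ E x ∧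
      ∑ n ∈ Finset.Icc 1 E, x n ^ 2 / n = 0 := by
  have h0 : ∀ m, s m = 0 := by
    intro m
    by_contra h
    have h1 := (Finset.sum_eq_zero_iff_of_nonneg (fun m _ => sq_nonneg (s m))).mp hσ m
      (Finset.mem_Icc.mpr (hs m h))
    exact h (pow_eq_zero_iff two_ne_zero |>.mp h1)
  obtain ⟨N₁, hN₁⟩ := as_grow 16 0 (a := 9 / 10) (by norm_num)
  obtain ⟨ρ, hρ⟩ := Pool.Agent.LK.kerC_exists_pr (T := 4) le_rfl
  refine ⟨N₁ + 1, fun N hN => ⟨4, ρ, 17, 1, fun _ => 0, ?_, by simp⟩⟩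
  have hN0 : (0 : ℝ) < N := by exact_mod_cast (by omega : 0 < N)
  have h16 : (16 : ℝ) ≤ (N : ℝ) ^ (9 / 10 : ℝ) := by simpa using hN₁ N (by omega)
  refine
    { ker := hρ.toKerL, bB := by norm_num, one := le_rfl, supp := fun n hn => absurd rfl hn,
      zero := by simp, size := by push_cast; linarith, ww := ?_, lin := ?_, quad := ?_ }
  · intro m _ _
    rw [wX_zero, WW_zero, abs_zero]
    positivity
  · rw [hσ]
    simp only [h0, zero_mul, zero_div, Finset.sum_const_zero]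
    linarith
  · rw [QN_zero, hσ, mul_zero, zero_add]
    exact he.le

/-- **class `χ(-N) = -1`** -/
theorem ex_minus (hG : GramS) (h2 : X2S) (h4 : X4S) : ExData 1 (ExZ 1) := by
  intro m₀ s hm₀ hs e he
  rcases (Finset.sum_nonneg fun m (_ : m ∈ Finset.Icc 1 m₀) => sq_nonneg (s m)).eq_or_lt with h | h
  · obtain ⟨N₀, hN₀⟩ := vec_zero 1 hs h.symm he
    refine ⟨1, one_pos, fun κ _ _ => ⟨N₀, fun N hN _ _ => ?_⟩⟩
    obtain ⟨T, ρ, B₀, E, x, hx, -⟩ := hN₀ N hN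
    exact ⟨T, ρ, B₀, E, x, hx⟩
  · obtain ⟨κ₀, c, C, A, N₀, hκ₀, -, -, hN₀⟩ := minus_main hG h2 h4 hm₀ hs h he
    refine ⟨κ₀, hκ₀, fun κ _ hκ => ⟨N₀ + 3, fun N hN hNp hP => ?_⟩⟩
    obtain ⟨q, _, χ, β, h5, h6, h7, h8, h9, h10⟩ := hP
    obtain ⟨K, b, θ, ρ, B₀, hv, -⟩ := hN₀ N (by omega) hNp q χ β
      ((Ex.mk h5 h6 h8 h9 h10).mono hκ (by omega)) h7
    exact ⟨_, ρ, B₀, _, _, hv⟩

/-- **class `χ(-N) = 1`** -/
theorem ex_plus (hG : GramS) (h2 : X2S) (h4 : X4S) : ExData (3 / 5) (ExZ 0) := by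
  intro m₀ s hm₀ hs e he
  rcases (Finset.sum_nonneg fun m (_ : m ∈ Finset.Icc 1 m₀) => sq_nonneg (s m)).eq_or_lt with h | h
  · obtain ⟨N₀, hN₀⟩ := vec_zero (3 / 5) hs h.symm he
    refine ⟨1, one_pos, fun κ _ _ => ⟨N₀, fun N hN _ _ => ?_⟩⟩
    obtain ⟨T, ρ, B₀, E, x, hx, -⟩ := hN₀ N hN
    exact ⟨T, ρ, B₀, E, x, hx⟩
  · obtain ⟨κ₀, c, C, A, N₀, hκ₀, -, -, hN₀⟩ := plus_main hG h2 h4 hm₀ hs h he
    refine ⟨κ₀, hκ₀, fun κ _ hκ => ⟨N₀ + 3, fun N hN hNp hP => ?_⟩⟩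
    obtain ⟨q, _, χ, β, h5, h6, h7, h8, h9, h10⟩ := hP
    obtain ⟨K, b, θ, ρ, B₀, hv, -⟩ := hN₀ N (by omega) hNp q χ β
      ((Ex.mk h5 h6 h8 h9 h10).mono hκ (by omega)) h7
    exact ⟨_, ρ, B₀, _, _, hv⟩

end Pool.Agent.LX
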