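import Pool.Agent.Lib_helper15.EXCF.FIN
import Pool.Agent.Lib_helper71.LSP3.AS8

/-! LSP3, assembly: the exceptional zero. -/

set_option autoImplicit false

namespace Pool.Agent.LX

open Complex MeasureTheory Set Filter Topology
open Pool.Agent.LSP (tau MX sg1 wX QN KerL ExVec ExData ExZ)
open Pool.Agent.KSL (WW)
open Pool.Agent.LEV (Um)
open Pool.Agent.LVB (IsST)
open Pool.Agent.LK (V KerC PQ)
open Pool.Agent.LE
open Pool.Agent.LG (Par Ai J3)
open Pool.Agent.LM (cv Pz)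

theorem gz_eq {q : ℕ} [NeZero q] {χ : DirichletCharacter ℂ q} {β c : ℝ} {g : ℂ → ℂ} {g₀ : ℝ}
    (hg : Pool.Agent.EXC.GFun χ β c g g₀) (hβ : β < 1) : gz χ β = g₀ := by
  have h := hg.fac 0
  rw [add_zero, zero_add, hg.zero] at h
  have h1 : (1 - β : ℝ) ≠ 0 := by linarith
  unfold gz
  rw [h, ← Complex.ofReal_mul, Complex.ofReal_re]
  field_simp

theorem Ex.small {κ : ℝ} (hκ1 : κ ≤ 1) {N : ℕ} (hN : 3 ≤ N) {q : ℕ} [NeZero q]
    {χ : DirichletCharacter ℂ q} {β : ℝ} (hE : Ex κ N χ β) :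
    0 < 1 - β ∧ (1 - β) * Real.log N ≤ κ ∧ (1 - β) * Real.log q ≤ κ := by
  have hN1 : (1 : ℝ) < N := by exact_mod_cast (by omega : 1 < N)
  have hlog : 0 < Real.log N := Real.log_pos hN1
  have h0 : 0 < 1 - β := by have := hE.lt1; linarith
  have h1 : 1 - β < κ / Real.log N := by have := hE.lt; linarith
  have h2 : (1 - β) * Real.log N ≤ κ := by
    rw [lt_div_iff₀ hlog] at h1
    exact h1.le
  refine ⟨h0, h2, ?_⟩
  have hq1 : (1 : ℝ) ≤ q := by exact_mod_cast Nat.one_le_iff_ne_zero.mpr (NeZero.ne q)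
  have h3 : Real.log q ≤ κ * Real.log N := by
    calc Real.log q ≤ Real.log ((N : ℝ) ^ κ) := Real.log_le_log (by linarith) hE.q_le
      _ = κ * Real.log N := Real.log_rpow (by linarith) _
  have h4 : Real.log q ≤ Real.log N :=
    h3.trans ((mul_le_mul_of_nonneg_right hκ1 hlog.le).trans (by rw [one_mul]))
  exact (mul_le_mul_of_nonneg_left h4 h0.le).trans h2

theorem x4s : X4S := by
  obtain ⟨c, hc, -, h⟩ := Pool.Agent.EXC.xpack_pr
  obtain ⟨c', hc', h'⟩ := Pool.Agent.EXC.xlower_pr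
  refine ⟨min c' (1 / 8), min c 1, 3, lt_min hc' (by norm_num), lt_min hc one_pos,
    fun N hN q _ χ β hE => ?_⟩
  obtain ⟨h0, h1, h2⟩ := Ex.small (min_le_right _ _) hN hE
  obtain ⟨-, g, g₀, hg⟩ := h q χ hE.pq β hE.zero (h2.trans (min_le_left _ _))
  constructor
  · refine le_trans ?_ (h' q χ hE.pq β hE.zero hE.lt1.le)
    gcongr
    exact min_le_left _ _
  · rw [gz_eq hg hE.lt1]
    exact (min_le_right _ _).trans hg.ge

theorem x2s : X2S := by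
  intro ε hε
  obtain ⟨A₁, κ, q₀, hA, hκ, h⟩ := Pool.Agent.EXC.xmoll_pr hε
  obtain ⟨c, hc, -, hp⟩ := Pool.Agent.EXC.xpack_pr
  obtain ⟨κ₁, N₁, hκ₁, hl⟩ := ex_large x4s q₀
  refine ⟨A₁, min (min κ c) (min κ₁ 1), N₁ + 3, hA, by positivity, fun N hN q _ χ β hE => ?_⟩
  obtain ⟨h0, h1, h2⟩ := Ex.small ((min_le_right _ _).trans (min_le_right _ _)) (by omega) hE
  obtain ⟨-, g, g₀, hg⟩ := hp q χ hE.pq β hE.zero
    (h2.trans ((min_le_left _ _).trans (min_le_right _ _)))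
  have h3 := hl N (by omega) q χ β
    (hE.mono ((min_le_right _ _).trans (min_le_left _ _)) (by omega))
  rw [gz_eq hg hE.lt1]
  exact h q χ hE.pq h3 β c g g₀ hg hE.zero (h2.trans ((min_le_left _ _).trans (min_le_left _ _)))

theorem grams : GramS := by
  intro C c η hC hc hη
  obtain ⟨c₀, hc₀, -, hp⟩ := Pool.Agent.EXC.xpack_pr
  obtain ⟨κ₁, N₁, hκ₁, h1⟩ := Pool.Agent.EXC.gram_pr hc₀ hC hc hη
  obtain ⟨κ₂, N₂, hκ₂, h2⟩ := Pool.Agent.EXC.gram_lin_pr hc₀ hC hc hη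
  obtain ⟨κ, hκ, k1, k2, k3, k4⟩ : ∃ κ : ℝ, 0 < κ ∧ κ ≤ κ₁ ∧ κ ≤ κ₂ ∧ κ ≤ c₀ ∧ κ ≤ 1 :=
    ⟨min (min κ₁ κ₂) (min c₀ 1), by positivity, (min_le_left _ _).trans (min_le_left _ _),
      (min_le_left _ _).trans (min_le_right _ _), (min_le_right _ _).trans (min_le_left _ _),
      (min_le_right _ _).trans (min_le_right _ _)⟩
  refine ⟨κ, N₁ + N₂ + 3, hκ, fun N hN q _ χ β hE I P hI hP K _ hKI B F hB hF => ?_⟩
  obtain ⟨h0, h3, h4⟩ := Ex.small k4 (by omega) hE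
  obtain ⟨-, g, g₀, hg⟩ := hp q χ hE.pq β hE.zero (h4.trans k3)
  have hgz := gz_eq hg hE.lt1
  constructor
  · intro hv hb
    obtain ⟨-, a1, a2, a3, a4, a5⟩ := h1 N (by omega) q χ hE.pq (hE.mono k1 (by omega)).q_le β g g₀
      hg h0.le (h3.trans k1) I P hI hP K hKI B hB F hF hv hb (Yy q N) (Real.log N) (1 - β)
      (Pool.Agent.EXC.hf0 q g₀ F) rfl rfl rfl rfl
    have hMm : Mm χ β F = Pool.Agent.EXC.hf0 q g₀ F := by
      unfold Mm Pool.Agent.EXC.hf0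
      rw [hgz]
    rw [hMm]
    unfold JJ
    push_cast at a1 a2 a3 a4 a5 ⊢
    exact ⟨a1, a2, a3, a4, a5⟩
  · intro hv hb
    obtain ⟨a1, a2, a3⟩ := h2 N (by omega) q χ hE.pq (hE.mono k2 (by omega)).q_le β g g₀
      hg h0.le (h3.trans k2) I P hI hP K hKI B hB F hF hv hb (Yy q N) (Real.log N) (1 - β)
      (g₀ * F) rfl rfl rfl rfl (fun i => RR χ P I K B i N) (fun i => rfl)
    rw [hgz]
    push_cast at a1 a2 a3 ⊢
    refine ⟨a2, a3, ?_⟩
    rw [a1]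
    have h5 : 0 < g₀ := by have := hg.ge; linarith
    rw [sub_self, norm_zero]
    positivity

/-- **class `χ(-N) = -1`** -/
theorem exd_minus : ExData 1 (ExZ 1) := ex_minus grams x2s x4s

/-- **class `χ(-N) = 1`** -/
theorem exd_plus : ExData (3 / 5) (ExZ 0) := ex_plus grams x2s x4s

end Pool.Agent.LX
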