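import Pool.Agent.Lib_helper71.LSP3.ExF
import Pool.Agent.Lib_helper71.LSP3.QDS

/-! LSP3: every large prime level. -/

set_option autoImplicit false

namespace Pool.Agent.LSP

open Pool.Agent.LEV Pool.Agent.LVB Pool.Agent.KSL
open Pool.Agent.LK (KerC PQ)
open Pool.Agent.FG61 (mu phi cc ff AA Lam)
open Complex MeasureTheory Filter Topology UpperHalfPlane ModularGroup ProbabilityTheory
open scoped MatrixGroups Modular ENNReal ModularForm ComplexConjugate ContDiff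

/-- a real primitive character of small conductor with a zero close to `1` -/
theorem not_free {κ κ₀ : ℝ} (hκ : κ ≤ κ₀) (hκ₀ : κ₀ ≤ 1 / 2) {N : ℕ} (hN : N.Prime)
    (h : ¬ GA.Free (κ₀ / Real.log N) ⌊(N : ℝ) ^ κ⌋₊) : ExZ 0 κ₀ N ∨ ExZ 1 κ₀ N := by
  unfold GA.Free at h
  push Not at h
  obtain ⟨q, hq, χ, hχ, h2, β, hβ, hlt⟩ := h
  rw [Finset.mem_Icc] at hq
  have hq0 : q ≠ 0 := by omega
  have : NeZero q := ⟨hq0⟩
  have h5 : χ.IsPrimitive ∧ χ ≠ 1 := by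
    have h6 := hχ
    unfold GA.Prm at h6
    simp only [Finset.mem_filter] at h6
    exact h6.2
  obtain ⟨h3, h4⟩ := h5
  have hN1 : (1 : ℝ) < N := by exact_mod_cast hN.one_lt
  have hN0 : (0 : ℝ) < N := by linarith
  have hqN : (q : ℝ) ≤ (N : ℝ) ^ κ₀ :=
    ((Nat.le_floor_iff' hq0).1 hq.2).trans (Real.rpow_le_rpow_of_exponent_le hN1.le hκ)
  unfold GA.LF at hβ
  rw [dif_neg hq0] at hβ
  have hβ1 : β < 1 := by
    by_contra h6
    push Not at h6
    exact DirichletCharacter.LFunction_ne_zero_of_one_le_re χ (s := (β : ℂ)) (Or.inl h4)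
      (by simpa using h6) hβ
  have hqlt : q < N := by
    have h6 : (N : ℝ) ^ κ₀ < (N : ℝ) ^ (1 : ℝ) :=
      Real.rpow_lt_rpow_of_exponent_lt hN1 (by linarith)
    rw [Real.rpow_one] at h6
    exact_mod_cast hqN.trans_lt h6
  have hcop : N.Coprime q := by
    rw [hN.coprime_iff_not_dvd]
    intro hd
    have := Nat.le_of_dvd (by omega) hd
    omega
  have hu : IsUnit (-(N : ZMod q)) := ((ZMod.isUnit_iff_coprime N q).2 hcop).neg
  have hχ1 : χ (-(N : ZMod q)) = 1 ∨ χ (-(N : ZMod q)) = -1 := by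
    have h6 : χ (-(N : ZMod q)) ^ 2 = 1 := by
      rw [← MulChar.pow_apply' χ two_ne_zero, h2, MulChar.one_apply hu]
    have h7 : (χ (-(N : ZMod q)) - 1) * (χ (-(N : ZMod q)) + 1) = 0 := by linear_combination h6
    rcases mul_eq_zero.mp h7 with h8 | h8
    · exact Or.inl (by linear_combination h8)
    · exact Or.inr (by linear_combination h8)
  have hPQ : PQ χ := ⟨h3, h2, h4⟩
  rcases hχ1 with h6 | h6
  · exact Or.inl ⟨q, ‹_›, χ, β, hPQ, hqN, by rw [h6]; simp, hlt, hβ1, hβ⟩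
  · exact Or.inr ⟨q, ‹_›, χ, β, hPQ, hqN, by rw [h6]; simp, hlt, hβ1, hβ⟩

/-- **more than half of the central values do not vanish at every large prime level** -/
theorem all_levels (hm : ExData 1 (ExZ 1)) (hp : ExData (3 / 5) (ExZ 0)) :
    ∃ (c : ℝ) (N₀ : ℕ), 0 < c ∧ c ≤ 1 ∧ ∀ (N : ℕ) [Fact N.Prime], N₀ ≤ N →
      (1 / 2 + c) * (N / 24) ≤
        ({f : S2 N | (IsNew f ∧ co f N = 1) ∧ Lh f ≠ 0}.ncard : ℝ) := by
  obtain ⟨κ₁, hκ₁, h1⟩ := ex_level (q := 1) (by norm_num) (by norm_num) hm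
    (δ := 2 / 100) (by norm_num)
  obtain ⟨κ₂, hκ₂, h2⟩ := ex_level (q := 3 / 5) (by norm_num) (by norm_num) hp
    (δ := 5 / 100) (by norm_num)
  obtain ⟨κ₀, hκ₀, hκ₀1, hκ₀2, hκ₀3⟩ : ∃ κ₀ : ℝ, 0 < κ₀ ∧ κ₀ ≤ κ₁ ∧ κ₀ ≤ κ₂ ∧ κ₀ ≤ 1 / 2 :=
    ⟨min (min κ₁ κ₂) (1 / 2), lt_min (lt_min hκ₁ hκ₂) (by norm_num),
      (min_le_left _ _).trans (min_le_left _ _), (min_le_left _ _).trans (min_le_right _ _),
      min_le_right _ _⟩
  obtain ⟨N₁, hN₁⟩ := h1 κ₀ hκ₀ hκ₀1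
  obtain ⟨N₂, hN₂⟩ := h2 κ₀ hκ₀ hκ₀2
  obtain ⟨κ, c, hκ, hκκ, -, hc, hc1, h3⟩ := free_small hκ₀ hκ₀
  obtain ⟨N₃, hN₃⟩ := h3 1 (by norm_num)
  refine ⟨min c (1 / 20), N₁ + N₂ + N₃ + 3, lt_min hc (by norm_num),
    (min_le_left _ _).trans hc1, fun N _ hN => ?_⟩
  have hN0 : (0 : ℝ) ≤ (N : ℝ) / 24 := by positivity
  by_cases hf : GA.Free (κ₀ / Real.log N) ⌊(N : ℝ) ^ κ⌋₊
  · have h4 := hN₃ N (by omega) hf N (by omega) (by omega)
    refine le_trans (mul_le_mul_of_nonneg_right ?_ hN0) (h4.trans ?_)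
    · have := min_le_left c (1 / 20)
      linarith
    · obtain ⟨_, _, hnf⟩ := new_fin
      have hF : {f : S2 N | IsNew f}.Finite := (hnf N).1
      have hlog : 0 < Real.log N := Real.log_pos (by
        have : (3 : ℝ) ≤ N := by exact_mod_cast (by omega : 3 ≤ N)
        linarith)
      have hsub : {f : S2 N | (IsNew f ∧ co f N = 1) ∧ 1 / Real.log N ^ (1 : ℝ) ≤ ‖Lh f‖} ⊆
          {f : S2 N | (IsNew f ∧ co f N = 1) ∧ Lh f ≠ 0} := by
        intro f hf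
        refine ⟨hf.1, fun h => ?_⟩
        have h5 := hf.2
        rw [h, norm_zero] at h5
        have h6 : 0 < 1 / Real.log N ^ (1 : ℝ) := by positivity
        linarith
      have hfin : {f : S2 N | (IsNew f ∧ co f N = 1) ∧ Lh f ≠ 0}.Finite :=
        hF.subset fun f hf => hf.1.1
      exact_mod_cast Set.ncard_le_ncard hsub hfin
  · have hNp : N.Prime := Fact.out
    have hm2 := min_le_right c (1 / 20 : ℝ)
    rcases not_free hκκ hκ₀3 hNp hf with h4 | h4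
    · refine le_trans (mul_le_mul_of_nonneg_right ?_ hN0) (hN₂ N (by omega) h4)
      linarith
    · refine le_trans (mul_le_mul_of_nonneg_right ?_ hN0) (hN₁ N (by omega) h4)
      linarith

end Pool.Agent.LSP
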