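import Pool.Agent.Lib_helper71.LSP3.AS4
import Pool.Agent.Lib_helper53.LM.Defs
import Pool.Agent.Lib_helper41.LVBF.STE

/-! LSP3, assembly: the mollifier and the main terms. -/

set_option autoImplicit false

namespace Pool.Agent.LX

open Complex MeasureTheory Set Filter Topology
open Pool.Agent.LSP (tau MX sg1 wX QN KerL ExVec ExData ExZ)
open Pool.Agent.KSL (WW)
open Pool.Agent.LEV (Um)
open Pool.Agent.LVB (IsST)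
open Pool.Agent.LK (V KerC PQ)
open Pool.Agent.LE
open Pool.Agent.LG (Par Ai J3)
open Pool.Agent.LM (cv Pz)

/-- `g(0)`, where `L(1 + w, χ) = (w + 1 - β) g(w)` -/
noncomputable def gz {q : ℕ} [NeZero q] (χ : DirichletCharacter ℂ q) (β : ℝ) : ℝ :=
  (DirichletCharacter.LFunction χ 1).re / (1 - β)

/-- the character and the zero -/
structure Ex (κ : ℝ) (N : ℕ) {q : ℕ} [NeZero q] (χ : DirichletCharacter ℂ q) (β : ℝ) : Prop where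
  pq : PQ χ
  q_le : (q : ℝ) ≤ (N : ℝ) ^ κ
  lt : 1 - κ / Real.log N < β
  lt1 : β < 1
  zero : DirichletCharacter.LFunction χ (β : ℂ) = 0

/-- the constant of the main terms -/
noncomputable def Mm {q : ℕ} [NeZero q] (χ : DirichletCharacter ℂ q) (β F : ℝ) : ℝ :=
  gz χ β ^ 4 * ((q.totient : ℝ) / q / ‖zq q 2‖) * F

/-- (G) the main terms (helper15) -/
def GramS : Prop := ∀ C c η : ℝ, 1 ≤ C → 0 < c → 0 < η → ∃ (κ₀ : ℝ) (N₀ : ℕ), 0 < κ₀ ∧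
  ∀ N : ℕ, N₀ ≤ N → ∀ (q : ℕ) [NeZero q] (χ : DirichletCharacter ℂ q) (β : ℝ), Ex κ₀ N χ β →
  ∀ (I : Finset ℕ) (P : Measure (ℕ → ℝ)), (∀ p ∈ I, p.Prime) → IsST I P → ∀ K : ℕ, 1 ≤ K →
  (∀ p : ℕ, p.Prime → p ≤ K → p ∈ I) → ∀ (B : ℕ → ℝ) (F : ℝ), SuppIn K B → 0 < F →
  (EW P I (w2 χ 0 0 0) (MX K B) = (F : ℂ) →
    (∀ r s z : ℂ, ‖r‖ ≤ c / Real.log q → ‖s‖ ≤ c / Real.log q → ‖z‖ ≤ c / Real.log q →
      ‖EW P I (w2 χ r s z) (MX K B)‖ ≤ C * F) →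
    ‖JJ χ P I K B 1 1 N - (2 * Mm χ β F : ℝ)‖ ≤ η * Mm χ β F ∧
    ‖JJ χ P I K B 2 2 N - (Real.log N ^ 2 * Mm χ β F : ℝ)‖ ≤ η * (Real.log N ^ 2 * Mm χ β F) ∧
    ‖JJ χ P I K B 2 0 N - ((1 - β) * Real.log N * Mm χ β F : ℝ)‖ ≤
      η * ((1 - β) * Real.log N * Mm χ β F) ∧
    ‖JJ χ P I K B 0 2 N - ((1 - β) * Real.log N * Mm χ β F : ℝ)‖ ≤
      η * ((1 - β) * Real.log N * Mm χ β F) ∧
    ‖JJ χ P I K B 0 0 N - (6 * (1 - β) ^ 2 * Mm χ β F : ℝ)‖ ≤ η * ((1 - β) ^ 2 * Mm χ β F)) ∧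
  (EW P I (w1 χ 0) (MX K B) = (F : ℂ) →
    (∀ z : ℂ, ‖z‖ ≤ c / Real.log q → ‖EW P I (w1 χ z) (MX K B)‖ ≤ C * F) →
    ‖RR χ P I K B 1 N - (gz χ β * F : ℝ)‖ ≤ η * (gz χ β * F) ∧
    ‖RR χ P I K B 2 N - (Real.log N / 2 * (gz χ β * F) : ℝ)‖ ≤ η * (Real.log N * (gz χ β * F)) ∧
    ‖RR χ P I K B 0 N - ((1 - β) * (gz χ β * F) : ℝ)‖ ≤ η * ((1 - β) * (gz χ β * F)))

/-- (X2) (helper15) -/
def X2S : Prop := ∀ ε : ℝ, 0 < ε → ∃ (A₁ : ℕ) (κ₀ : ℝ) (N₀ : ℕ), 1 ≤ A₁ ∧ 0 < κ₀ ∧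
  ∀ N : ℕ, N₀ ≤ N → ∀ (q : ℕ) [NeZero q] (χ : DirichletCharacter ℂ q) (β : ℝ), Ex κ₀ N χ β →
    gz χ β * ∏ p ∈ Pz (q ^ A₁), (1 - 1 / (p : ℝ)) * (1 - cv χ p / p) ≤ 1 + ε

/-- (X1b), (X4) (helper15) -/
def X4S : Prop := ∃ (c κ₀ : ℝ) (N₀ : ℕ), 0 < c ∧ 0 < κ₀ ∧
  ∀ N : ℕ, N₀ ≤ N → ∀ (q : ℕ) [NeZero q] (χ : DirichletCharacter ℂ q) (β : ℝ), Ex κ₀ N χ β →
    c / (q : ℝ) ^ 2 ≤ 1 - β ∧ c ≤ gz χ β

theorem Ex.mono {κ κ₀ : ℝ} (h : κ ≤ κ₀) {N : ℕ} (hN : 3 ≤ N) {q : ℕ} [NeZero q]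
    {χ : DirichletCharacter ℂ q} {β : ℝ} (hE : Ex κ N χ β) : Ex κ₀ N χ β := by
  have hN1 : (1 : ℝ) < N := by exact_mod_cast (by omega : 1 < N)
  have hlog : 0 < Real.log N := Real.log_pos hN1
  refine ⟨hE.pq, hE.q_le.trans (Real.rpow_le_rpow_of_exponent_le hN1.le h), ?_, hE.lt1, hE.zero⟩
  have h1 : κ / Real.log N ≤ κ₀ / Real.log N := by gcongr
  have := hE.lt
  linarith

/-- the conductor tends to infinity -/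
theorem ex_large (h4 : X4S) (q₀ : ℕ) : ∃ (κ₀ : ℝ) (N₀ : ℕ), 0 < κ₀ ∧
    ∀ N : ℕ, N₀ ≤ N → ∀ (q : ℕ) [NeZero q] (χ : DirichletCharacter ℂ q) (β : ℝ), Ex κ₀ N χ β →
      q₀ ≤ q := by
  obtain ⟨c, κ₀, N₀, hc, hκ₀, h⟩ := h4
  have hl : Tendsto (fun N : ℕ => Real.log (N : ℝ)) atTop atTop :=
    Real.tendsto_log_atTop.comp tendsto_natCast_atTop_atTop
  obtain ⟨N₁, hN₁⟩ := Filter.eventually_atTop.mp
    (hl.eventually_ge_atTop (max 1 (κ₀ * (q₀ : ℝ) ^ 2 / c)))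
  refine ⟨κ₀, N₀ + N₁, hκ₀, fun N hN q _ χ β hE => ?_⟩
  obtain ⟨h1, -⟩ := h N (by omega) q χ β hE
  have h2 := hN₁ N (by omega)
  have h3 : 1 ≤ Real.log N := (le_max_left _ _).trans h2
  have h4 : κ₀ * (q₀ : ℝ) ^ 2 / c ≤ Real.log N := (le_max_right _ _).trans h2
  by_contra hlt
  push Not at hlt
  have hq1 : (1 : ℝ) ≤ q := by exact_mod_cast Nat.one_le_iff_ne_zero.mpr (NeZero.ne q)
  have hq2 : (q : ℝ) < q₀ := by exact_mod_cast hlt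
  have h5 : 1 - β < κ₀ / Real.log N := by have := hE.lt; linarith
  have h6 : c / (q : ℝ) ^ 2 < κ₀ / Real.log N := h1.trans_lt h5
  rw [div_lt_div_iff₀ (by positivity) (by linarith)] at h6
  rw [div_le_iff₀ hc] at h4
  have h7 : κ₀ * (q : ℝ) ^ 2 ≤ κ₀ * (q₀ : ℝ) ^ 2 := by gcongr
  nlinarith

end Pool.Agent.LX
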