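import Pool.Agent.Lib_helper71.LSP3.DefsF
import Pool.Agent.Lib_helper31.LG.Defs
import Pool.Agent.Lib_helper31.LGF.GA

/-! LSP3, assembly: the vector. -/

set_option autoImplicit false

namespace Pool.Agent.LX

open Complex MeasureTheory Set Filter Topology
open Pool.Agent.LSP (tau MX sg1 wX QN KerL ExVec ExData ExZ)
open Pool.Agent.KSL (WW)
open Pool.Agent.LEV (Um)
open Pool.Agent.LVB (IsST)
open Pool.Agent.LK (V KerC PQ)
open Pool.Agent.LE
open Pool.Agent.LG (Par Ai J3)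

/-- the exponent of the kernel -/
noncomputable def nu : ℝ := 1 / 10 ^ 6

/-- the exponent of the conductor and of the mollifier -/
noncomputable def dl : ℝ := 1 / 10 ^ 11

/-- the centre of the functional equation -/
noncomputable def Yy (q N : ℕ) : ℝ := q * Real.sqrt N

/-- the length of the smooth twist -/
noncomputable def Aa (q N : ℕ) : ℕ := ⌈Yy q N * (N : ℝ) ^ (nu / 100)⌉₊

theorem nu_pos : 0 < nu := by unfold nu; norm_num
theorem dl_pos : 0 < dl := by unfold dl; norm_num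
theorem dl_nu : dl = nu / 10 ^ 5 := by unfold nu dl; norm_num

/-- powers of the logarithm -/
theorem as_grow (C : ℝ) (k : ℕ) {a : ℝ} (ha : 0 < a) : ∃ N₀ : ℕ, ∀ N : ℕ, N₀ ≤ N →
    C * (1 + 2 * Real.log N) ^ k ≤ (N : ℝ) ^ a := by
  have h1 : (fun x : ℝ => Real.log x ^ (k : ℝ)) =o[atTop] fun x => x ^ a :=
    isLittleO_log_rpow_rpow_atTop (k : ℝ) ha
  have h2 := (h1.bound (show (0 : ℝ) < 1 / ((|C| + 1) * 3 ^ k) by positivity))
  have h3 := (tendsto_natCast_atTop_atTop (R := ℝ)).eventually h2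
  have h4 : ∀ᶠ N : ℕ in atTop, 1 ≤ Real.log (N : ℝ) :=
    (Real.tendsto_log_atTop.comp tendsto_natCast_atTop_atTop).eventually_ge_atTop 1
  obtain ⟨N₀, hN₀⟩ := Filter.eventually_atTop.mp (h3.and h4)
  refine ⟨N₀ + 1, fun N hN => ?_⟩
  obtain ⟨h5, h6⟩ := hN₀ N (by omega)
  have hN0 : (0 : ℝ) < N := by exact_mod_cast (by omega : 0 < N)
  rw [Real.norm_of_nonneg (by positivity), Real.norm_of_nonneg (by positivity),
    Real.rpow_natCast] at h5
  have h7 : (1 + 2 * Real.log N) ^ k ≤ 3 ^ k * Real.log N ^ k := by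
    rw [← mul_pow]
    apply pow_le_pow_left₀ (by positivity)
    linarith
  calc C * (1 + 2 * Real.log N) ^ k ≤ (|C| + 1) * (3 ^ k * Real.log N ^ k) := by
        have h8 : C ≤ |C| + 1 := by have := le_abs_self C; linarith
        have h9 : 0 ≤ (1 + 2 * Real.log (N : ℝ)) ^ k := by positivity
        exact mul_le_mul h8 h7 h9 (by positivity)
    _ ≤ (|C| + 1) * (3 ^ k * (1 / ((|C| + 1) * 3 ^ k) * (N : ℝ) ^ a)) := by gcongr
    _ = (N : ℝ) ^ a := by field_simp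

theorem as_Y {q N : ℕ} (hq : 1 ≤ q) (hN : 1 ≤ N) : 1 ≤ Yy q N := by
  unfold Yy
  have h1 : (1 : ℝ) ≤ q := by exact_mod_cast hq
  have h2 : (1 : ℝ) ≤ Real.sqrt N := by
    rw [Real.one_le_sqrt]
    exact_mod_cast hN
  nlinarith

theorem as_par : ∃ N₀ : ℕ, ∀ N : ℕ, N₀ ≤ N → ∀ q : ℕ, 1 ≤ q → (q : ℝ) ≤ (N : ℝ) ^ dl →
    Par nu N q (Yy q N) (Aa q N) ∧ Yy q N * (1 + Real.log (Yy q N)) ≤ Aa q N ∧
      (Aa q N : ℝ) ≤ (N : ℝ) ^ (1 / 2 + nu / 20) ∧ 1 ≤ Aa q N := by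
  obtain ⟨N₁, hN₁⟩ := as_grow 2 0 (a := nu / 100) (by have := nu_pos; positivity)
  obtain ⟨N₂, hN₂⟩ := as_grow 1 1 (a := nu / 100) (by have := nu_pos; positivity)
  refine ⟨N₁ + N₂ + 1, fun N hN q hq hqN => ?_⟩
  have hN1 : (1 : ℝ) ≤ N := by exact_mod_cast (by omega : 1 ≤ N)
  have hN0 : (0 : ℝ) < N := by linarith
  have hY := as_Y hq (by omega : 1 ≤ N)
  have hnu := nu_pos
  have h2 : (2 : ℝ) ≤ (N : ℝ) ^ (nu / 100) := by simpa using hN₁ N (by omega)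
  have h3 : 1 + 2 * Real.log N ≤ (N : ℝ) ^ (nu / 100) := by simpa using hN₂ N (by omega)
  have h4 : (N : ℝ) ^ (nu / 50) = (N : ℝ) ^ (nu / 100) * (N : ℝ) ^ (nu / 100) := by
    rw [← Real.rpow_add hN0]
    congr 1
    ring
  have h5 : Yy q N * (N : ℝ) ^ (nu / 100) ≤ (Aa q N : ℝ) := Nat.le_ceil _
  have h6 : (Aa q N : ℝ) ≤ Yy q N * (N : ℝ) ^ (nu / 50) := by
    have h7 : (Aa q N : ℝ) < Yy q N * (N : ℝ) ^ (nu / 100) + 1 := by
      apply Nat.ceil_lt_add_one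
      positivity
    rw [h4]
    generalize (N : ℝ) ^ (nu / 100) = r at *
    nlinarith
  have hYle : Yy q N ≤ (N : ℝ) ^ (1 / 2 + dl) := by
    unfold Yy
    rw [Real.rpow_add hN0, ← Real.sqrt_eq_rpow, mul_comm]
    exact mul_le_mul_of_nonneg_left hqN (Real.sqrt_nonneg _)
  refine ⟨⟨hqN.trans (Real.rpow_le_rpow_of_exponent_le hN1 (by rw [dl_nu]; linarith)), rfl,
    h5, h6⟩, ?_, ?_, ?_⟩
  · refine le_trans ?_ h5
    apply mul_le_mul_of_nonneg_left _ (by linarith)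
    have h7 : Real.log (Yy q N) ≤ 2 * Real.log N := by
      have h8 : Real.log (Yy q N) ≤ Real.log ((N : ℝ) ^ (1 / 2 + dl)) :=
        Real.log_le_log (by linarith) hYle
      rw [Real.log_rpow hN0] at h8
      have h9 : 0 ≤ Real.log N := Real.log_nonneg hN1
      have h10 : 1 / 2 + dl ≤ 2 := by unfold dl; norm_num
      nlinarith
    linarith
  · refine h6.trans ?_
    calc Yy q N * (N : ℝ) ^ (nu / 50) ≤ (N : ℝ) ^ (1 / 2 + dl) * (N : ℝ) ^ (nu / 50) :=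
          mul_le_mul_of_nonneg_right hYle (by positivity)
      _ = (N : ℝ) ^ (1 / 2 + dl + nu / 50) := by rw [← Real.rpow_add hN0]
      _ ≤ (N : ℝ) ^ (1 / 2 + nu / 20) := by
          apply Real.rpow_le_rpow_of_exponent_le hN1
          rw [dl_nu]
          linarith
  · have h7 : (1 : ℝ) ≤ Aa q N := by nlinarith
    exact_mod_cast h7

variable {q : ℕ} [NeZero q]

theorem xv_supp (χ : DirichletCharacter ℂ q) (i : ℕ) (Y : ℝ) (E : ℕ) : SuppIn E (xv χ i Y E) := by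
  intro e he
  unfold xv at he
  by_contra h
  rw [if_neg h] at he
  exact he rfl

theorem xv_le (i : ℕ) : ∃ N₀ : ℕ, ∀ N : ℕ, N₀ ≤ N → ∀ (q : ℕ) [NeZero q]
    (χ : DirichletCharacter ℂ q), (q : ℝ) ≤ (N : ℝ) ^ dl → ∀ e : ℕ,
    |xv χ i (Yy q N) (Aa q N) e| ≤ (N : ℝ) ^ dl := by
  obtain ⟨C, hC, hV, -, -⟩ := Pool.Agent.LG.v_facts_pr i
  obtain ⟨N₁, hN₁⟩ := as_par
  obtain ⟨N₂, hN₂⟩ := as_grow C i dl_pos
  refine ⟨N₁ + N₂ + 1, fun N hN q _ χ hq e => ?_⟩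
  have hq1 : 1 ≤ q := Nat.one_le_iff_ne_zero.mpr (NeZero.ne q)
  obtain ⟨hpar, -, hA, -⟩ := hN₁ N (by omega) q hq1 hq
  have hN1 : (1 : ℝ) ≤ N := by exact_mod_cast (by omega : 1 ≤ N)
  have hN0 : (0 : ℝ) < N := by linarith
  have hY := as_Y hq1 (by omega : 1 ≤ N)
  unfold xv
  split_ifs with h
  · have he0 : (0 : ℝ) < e := by exact_mod_cast h.1
    have hy : 0 < (e : ℝ) / Yy q N := by positivity
    obtain ⟨h1, h2⟩ := hV _ hy
    have h3 : |(χ e).re| ≤ 1 := (Complex.abs_re_le_norm _).trans (DirichletCharacter.norm_le_one χ _)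
    rw [abs_mul, abs_of_nonneg h1]
    have hlogN : 0 ≤ Real.log N := Real.log_nonneg hN1
    have hle : Real.log e ≤ Real.log N := by
      apply Real.log_le_log he0
      have h4 : (e : ℝ) ≤ Aa q N := by exact_mod_cast h.2
      refine (h4.trans hA).trans ?_
      calc (N : ℝ) ^ (1 / 2 + nu / 20) ≤ (N : ℝ) ^ (1 : ℝ) :=
            Real.rpow_le_rpow_of_exponent_le hN1 (by unfold nu; norm_num)
        _ = N := Real.rpow_one _
    have hYl : Real.log (Yy q N) ≤ Real.log N := by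
      apply Real.log_le_log (by linarith)
      have h4 : Yy q N ≤ Aa q N := by
        refine le_trans ?_ hpar.A_ge
        exact le_mul_of_one_le_right (by linarith)
          (Real.one_le_rpow hN1 (by have := nu_pos; positivity))
      refine (h4.trans hA).trans ?_
      calc (N : ℝ) ^ (1 / 2 + nu / 20) ≤ (N : ℝ) ^ (1 : ℝ) :=
            Real.rpow_le_rpow_of_exponent_le hN1 (by unfold nu; norm_num)
        _ = N := Real.rpow_one _
    have h5 : |Real.log ((e : ℝ) / Yy q N)| ≤ 2 * Real.log N := by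
      rw [Real.log_div he0.ne' (by linarith)]
      have h6 : 0 ≤ Real.log e := Real.log_nonneg (by exact_mod_cast h.1)
      have h7 : 0 ≤ Real.log (Yy q N) := Real.log_nonneg hY
      rw [abs_le]
      constructor <;> linarith
    have h6 : Real.exp (-((e : ℝ) / Yy q N)) ≤ 1 := Real.exp_le_one_iff.mpr (by linarith)
    calc |(χ e).re| * V i ((e : ℝ) / Yy q N) ≤ 1 * V i ((e : ℝ) / Yy q N) :=
          mul_le_mul_of_nonneg_right h3 h1
      _ ≤ C * (1 + |Real.log ((e : ℝ) / Yy q N)|) ^ i * Real.exp (-((e : ℝ) / Yy q N)) := by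
          rw [one_mul]; exact h2
      _ ≤ C * (1 + 2 * Real.log N) ^ i * 1 := by gcongr
      _ ≤ (N : ℝ) ^ dl := by rw [mul_one]; exact hN₂ N (by omega)
  · rw [abs_zero]
    positivity

/-- the smooth twist -/
noncomputable def uu (χ : DirichletCharacter ℂ q) (J : Finset ℕ) (θ : ℕ → ℝ) (N : ℕ) (e : ℕ) : ℝ :=
  ∑ i ∈ J, θ i * xv χ i (Yy q N) (Aa q N) e

/-- the vector -/
noncomputable def xx (χ : DirichletCharacter ℂ q) (J : Finset ℕ) (θ : ℕ → ℝ) (N K : ℕ)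
    (b : ℕ → ℝ) : ℕ → ℝ := HP (Aa q N * K ^ 2) (uu χ J θ N) b

theorem uu_supp (χ : DirichletCharacter ℂ q) (J : Finset ℕ) (θ : ℕ → ℝ) (N : ℕ) :
    SuppIn (Aa q N) (uu χ J θ N) := by
  intro e he
  by_contra h
  apply he
  unfold uu
  refine Finset.sum_eq_zero fun i _ => ?_
  have : xv χ i (Yy q N) (Aa q N) e = 0 := by
    by_contra h2
    exact h (xv_supp χ i _ _ e h2)
  rw [this, mul_zero]

theorem uu_le (J : Finset ℕ) : ∃ N₀ : ℕ, ∀ N : ℕ, N₀ ≤ N → ∀ (q : ℕ) [NeZero q]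
    (χ : DirichletCharacter ℂ q), (q : ℝ) ≤ (N : ℝ) ^ dl → ∀ θ : ℕ → ℝ,
    (∀ i ∈ J, |θ i| ≤ (N : ℝ) ^ dl) → ∀ e : ℕ, |uu χ J θ N e| ≤ J.card * (N : ℝ) ^ (2 * dl) := by
  choose F hF using xv_le
  refine ⟨J.sup F + 1, fun N hN q _ χ hq θ hθ e => ?_⟩
  have hN0 : (0 : ℝ) < N := by exact_mod_cast (by omega : 0 < N)
  unfold uu
  refine (Finset.abs_sum_le_sum_abs _ _).trans ?_
  have h1 : ∀ i ∈ J, |θ i * xv χ i (Yy q N) (Aa q N) e| ≤ (N : ℝ) ^ (2 * dl) := by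
    intro i hi
    have h2 : F i ≤ J.sup F := Finset.le_sup hi
    rw [abs_mul, two_mul, Real.rpow_add hN0]
    exact mul_le_mul (hθ i hi) (hF i N (by omega) q χ hq e) (abs_nonneg _) (by positivity)
  calc ∑ i ∈ J, |θ i * xv χ i (Yy q N) (Aa q N) e| ≤ ∑ _i ∈ J, (N : ℝ) ^ (2 * dl) :=
        Finset.sum_le_sum h1
    _ = J.card * (N : ℝ) ^ (2 * dl) := by rw [Finset.sum_const, nsmul_eq_mul]

end Pool.Agent.LX
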