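import Pool.Agent.Lib_helper41.LSP3.SIZ
import Pool.Agent.Lib_helper71.LSP3.AS9

/-! LSP3, assembly: the size of the mollifiers. -/

set_option autoImplicit false

namespace Pool.Agent.LX

open Complex MeasureTheory Set Filter Topology
open Pool.Agent.LSP (tau MX sg1 wX QN KerL ExVec ExData ExZ ExDataB ExZB)
open Pool.Agent.KSL (WW)
open Pool.Agent.LEV (Um)
open Pool.Agent.LVB (IsST)
open Pool.Agent.LK (V KerC PQ)
open Pool.Agent.LE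
open Pool.Agent.LG (Par Ai J3)
open Pool.Agent.LM (cv Pz)

/-- the mean square of the mollifier is at most a power of the logarithm -/
theorem xx_log (J : Finset ℕ) {C : ℝ} (hC : 0 < C) (A a : ℕ) : ∃ w N₀ : ℕ, ∀ N : ℕ, N₀ ≤ N →
    ∀ (q : ℕ) [NeZero q] (χ : DirichletCharacter ℂ q) (K : ℕ) (b θ : ℕ → ℝ), SuppIn K b → 1 ≤ K →
    (∀ k, |b k| ≤ C * Real.log N ^ A * tau k ^ A) → (∀ i ∈ J, |θ i| ≤ C * Real.log N ^ a) →
    (K : ℝ) ≤ (N : ℝ) ^ dl → (q : ℝ) ≤ (N : ℝ) ^ dl →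
    ∑ n ∈ Finset.Icc 1 (Aa q N * K ^ 2), xx χ J θ N K b n ^ 2 / n ≤ Real.log N ^ w := by
  choose Cx hCx1 hCx using fun i : ℕ => Pool.Agent.L3.xv_bd i
  obtain ⟨s, hs⟩ : ∃ s : ℕ, s = J.sup id := ⟨_, rfl⟩
  obtain ⟨D, hD⟩ : ∃ D : ℝ, D = ∑ i ∈ J, C * Cx i * 2 ^ s := ⟨_, rfl⟩
  have hCx0 : ∀ i, 0 < Cx i := fun i => by have := hCx1 i; linarith
  have hD0 : 0 ≤ D := by
    rw [hD]
    exact Finset.sum_nonneg fun i _ => by have := hCx0 i; positivity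
  obtain ⟨W, hW⟩ : ∃ W : ℕ, W = 2 * 2 ^ A + 2 ^ (2 * (A + 1)) := ⟨_, rfl⟩
  obtain ⟨N₁, hN₁⟩ := as_par
  have hl : Tendsto (fun N : ℕ => Real.log (N : ℝ)) atTop atTop :=
    Real.tendsto_log_atTop.comp tendsto_natCast_atTop_atTop
  obtain ⟨N₂, hN₂⟩ := Filter.eventually_atTop.mp
    (hl.eventually_ge_atTop (max 1 ((D * C) ^ 2 * 2 ^ W)))
  refine ⟨2 * (a + s + A) + W + 1, N₁ + N₂ + 1, fun N hN q _ χ K b θ hb hK hbt hθ hKN hqN => ?_⟩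
  have hq1 : 1 ≤ q := Nat.one_le_iff_ne_zero.mpr (NeZero.ne q)
  obtain ⟨-, -, hAN, hA1⟩ := hN₁ N (by omega) q hq1 hqN
  have hl1 := hN₂ N (by omega)
  obtain ⟨L, hL⟩ : ∃ L : ℝ, L = Real.log N := ⟨_, rfl⟩
  rw [← hL] at hl1 hbt hθ ⊢
  have hL1 : 1 ≤ L := (le_max_left _ _).trans hl1
  have hL2 : (D * C) ^ 2 * 2 ^ W ≤ L := (le_max_right _ _).trans hl1
  have hN1 : (1 : ℝ) ≤ N := by exact_mod_cast (by omega : 1 ≤ N)
  have hN0 : (0 : ℝ) < N := by linarith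
  have hY1 : 1 ≤ Yy q N := as_Y hq1 (by omega)
  have hYN : Yy q N ≤ N := by
    have h1 : Yy q N ≤ (N : ℝ) ^ dl * (N : ℝ) ^ (1 / 2 : ℝ) := by
      unfold Yy
      rw [← Real.sqrt_eq_rpow]
      exact mul_le_mul_of_nonneg_right hqN (Real.sqrt_nonneg _)
    refine h1.trans ?_
    rw [← Real.rpow_add hN0]
    calc (N : ℝ) ^ (dl + 1 / 2) ≤ (N : ℝ) ^ (1 : ℝ) :=
          Real.rpow_le_rpow_of_exponent_le hN1 (by unfold dl; norm_num)
      _ = N := Real.rpow_one _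
  have hlogY : Real.log (Yy q N) ≤ L := by
    rw [hL]
    exact Real.log_le_log (by linarith) hYN
  have hlogY0 : 0 ≤ Real.log (Yy q N) := Real.log_nonneg hY1
  have hE1 : 1 ≤ Aa q N * K ^ 2 := Nat.one_le_iff_ne_zero.mpr (by positivity)
  have hEN : ((Aa q N * K ^ 2 : ℕ) : ℝ) ≤ N := by
    push_cast
    calc (Aa q N : ℝ) * (K : ℝ) ^ 2 ≤ (N : ℝ) ^ (1 / 2 + nu / 20) * ((N : ℝ) ^ dl) ^ 2 := by gcongr
      _ = (N : ℝ) ^ (1 / 2 + nu / 20 + dl * 2) := by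
          rw [← Real.rpow_natCast ((N : ℝ) ^ dl) 2, ← Real.rpow_mul hN0.le, ← Real.rpow_add hN0]
          norm_num
      _ ≤ (N : ℝ) ^ (1 : ℝ) :=
          Real.rpow_le_rpow_of_exponent_le hN1 (by unfold dl nu; norm_num)
      _ = N := Real.rpow_one _
  have hlogE : Real.log ((Aa q N * K ^ 2 : ℕ) : ℝ) ≤ L := by
    rw [hL]
    exact Real.log_le_log (by exact_mod_cast hE1) hEN
  have hlogE0 : 0 ≤ Real.log ((Aa q N * K ^ 2 : ℕ) : ℝ) := Real.log_natCast_nonneg _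
  have hU : ∀ e, |∑ i ∈ J, θ i * xv χ i (Yy q N) (Aa q N) e| ≤ D * L ^ (a + s) := by
    intro e
    refine (Finset.abs_sum_le_sum_abs _ _).trans ?_
    rw [hD, Finset.sum_mul]
    refine Finset.sum_le_sum fun i hi => ?_
    rw [abs_mul]
    have h1 := hCx i q χ (Yy q N) (Aa q N) e hY1
    have h2 : (1 + Real.log (Yy q N)) ^ i ≤ 2 ^ s * L ^ s := by
      calc (1 + Real.log (Yy q N)) ^ i ≤ (2 * L) ^ i :=
            pow_le_pow_left₀ (by positivity) (by linarith) i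
        _ ≤ (2 * L) ^ s := pow_le_pow_right₀ (by linarith) (hs ▸ Finset.le_sup (f := id) hi)
        _ = _ := mul_pow _ _ _
    have h3 := hCx0 i
    calc |θ i| * |xv χ i (Yy q N) (Aa q N) e| ≤ (C * L ^ a) * (Cx i * (2 ^ s * L ^ s)) :=
          mul_le_mul (hθ i hi) (h1.trans (mul_le_mul_of_nonneg_left h2 h3.le)) (abs_nonneg _)
            (by positivity)
      _ = C * Cx i * 2 ^ s * L ^ (a + s) := by rw [pow_add]; ring
  have h := Pool.Agent.L3.xx_mean χ J θ (Yy q N) (Aa q N) hE1 hb hU hbt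
  have h1 : ∑ n ∈ Finset.Icc 1 (Aa q N * K ^ 2), xx χ J θ N K b n ^ 2 / n ≤
      (D * L ^ (a + s) * (C * L ^ A)) ^ 2 *
        (1 + Real.log ((Aa q N * K ^ 2 : ℕ) : ℝ)) ^ (2 * 2 ^ A + 2 ^ (2 * (A + 1))) := h
  refine h1.trans ?_
  rw [← hW]
  have h2 : (1 + Real.log ((Aa q N * K ^ 2 : ℕ) : ℝ)) ^ W ≤ (2 * L) ^ W :=
    pow_le_pow_left₀ (by positivity) (by linarith) W
  calc (D * L ^ (a + s) * (C * L ^ A)) ^ 2 * (1 + Real.log ((Aa q N * K ^ 2 : ℕ) : ℝ)) ^ W ≤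
      (D * L ^ (a + s) * (C * L ^ A)) ^ 2 * (2 * L) ^ W :=
        mul_le_mul_of_nonneg_left h2 (by positivity)
    _ = ((D * C) ^ 2 * 2 ^ W) * L ^ (2 * (a + s + A) + W) := by
        rw [mul_pow 2 L W, pow_add L (2 * (a + s + A)), pow_mul' L 2 (a + s + A), pow_add L (a + s) A]
        ring
    _ ≤ L * L ^ (2 * (a + s + A) + W) := mul_le_mul_of_nonneg_right hL2 (by positivity)
    _ = L ^ (2 * (a + s + A) + W + 1) := by rw [pow_succ']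

/-- **class `χ(-N) = -1`** -/
theorem exb_minus : ExDataB 1 (ExZ 1) := by
  intro m₀ s hm₀ hs e he
  rcases (Finset.sum_nonneg fun m (_ : m ∈ Finset.Icc 1 m₀) => sq_nonneg (s m)).eq_or_lt with h | h
  · obtain ⟨N₀, hN₀⟩ := vec_zero 1 hs h.symm he
    refine ⟨1, 0, one_pos, fun κ _ _ => ⟨N₀, fun N hN _ _ => ?_⟩⟩
    obtain ⟨T, ρ, B₀, E, x, hx, h0⟩ := hN₀ N hN
    exact ⟨T, ρ, B₀, E, x, hx, by rw [h0]; norm_num⟩
  · obtain ⟨κ₀, c, C, A, N₀, hκ₀, -, hC, hN₀⟩ := minus_main grams x2s x4s hm₀ hs h he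
    obtain ⟨w, N₁, hw⟩ := xx_log {1} hC A 0
    refine ⟨κ₀, w, hκ₀, fun κ _ hκ => ⟨N₀ + N₁ + 3, fun N hN hNp hP => ?_⟩⟩
    obtain ⟨q, _, χ, β, hpq, hqN, hpar, hlt, hlt1, hz⟩ := hP
    have hE : Ex κ N χ β := ⟨hpq, hqN, hlt, hlt1, hz⟩
    obtain ⟨K, b, θ, ρ, B₀, hv, hb, hK, hbt, hθ, hKN, hqN'⟩ :=
      hN₀ N (by omega) hNp q χ β (hE.mono hκ (by omega)) hpar
    exact ⟨_, ρ, B₀, _, _, hv, hw N (by omega) q χ K b θ hb hK hbt (fun i hi => by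
      rw [Finset.mem_singleton] at hi
      rw [hi]
      simpa using hθ) hKN hqN'⟩

/-- **class `χ(-N) = 1`**, the zero not closer to `1` than `(log N)^{-B}` -/
theorem exb_plus (B : ℝ) (hB : 0 < B) : ExDataB (3 / 5) (ExZB B 0) := by
  intro m₀ s hm₀ hs e he
  rcases (Finset.sum_nonneg fun m (_ : m ∈ Finset.Icc 1 m₀) => sq_nonneg (s m)).eq_or_lt with h | h
  · obtain ⟨N₀, hN₀⟩ := vec_zero (3 / 5) hs h.symm he
    refine ⟨1, 0, one_pos, fun κ _ _ => ⟨N₀, fun N hN _ _ => ?_⟩⟩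
    obtain ⟨T, ρ, B₀, E, x, hx, h0⟩ := hN₀ N hN
    exact ⟨T, ρ, B₀, E, x, hx, by rw [h0]; norm_num⟩
  · obtain ⟨κ₀, c, C, A, N₀, hκ₀, -, hC, hN₀⟩ := plus_main grams x2s x4s hm₀ hs h he
    obtain ⟨a, ha⟩ : ∃ a : ℕ, B ≤ a := exists_nat_ge B
    obtain ⟨w, N₁, hw⟩ := xx_log {0, 2} hC A a
    have hl : Tendsto (fun N : ℕ => Real.log (N : ℝ)) atTop atTop :=
      Real.tendsto_log_atTop.comp tendsto_natCast_atTop_atTop
    obtain ⟨N₂, hN₂⟩ := Filter.eventually_atTop.mp (hl.eventually_ge_atTop 1)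
    refine ⟨κ₀, w, hκ₀, fun κ _ hκ => ⟨N₀ + N₁ + N₂ + 3, fun N hN hNp hP => ?_⟩⟩
    obtain ⟨q, _, χ, β, hpq, hqN, hpar, hlt, hlt1, hz⟩ := hP
    have hL1 : 1 ≤ Real.log N := hN₂ N (by omega)
    have hd : Real.log N ^ (-B) ≤ 1 - β := by linarith
    have hd0 : 0 < Real.log N ^ (-B) := Real.rpow_pos_of_pos (by linarith) _
    have hE : Ex κ N χ β := ⟨hpq, hqN, hlt, by linarith, hz⟩
    obtain ⟨K, b, θ, ρ, B₀, hv, hb, hK, hbt, hθ2, hθ0, hKN, hqN'⟩ :=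
      hN₀ N (by omega) hNp q χ β (hE.mono hκ (by omega)) hpar
    have hLa : (1 : ℝ) ≤ Real.log N ^ a := one_le_pow₀ hL1
    exact ⟨_, ρ, B₀, _, _, hv, hw N (by omega) q χ K b θ hb hK hbt (fun i hi => by
      rw [Finset.mem_insert, Finset.mem_singleton] at hi
      rcases hi with rfl | rfl
      · have h1 : |θ 0| * Real.log N ^ (-B) ≤ C :=
          (mul_le_mul_of_nonneg_left hd (abs_nonneg _)).trans hθ0
        rw [Real.rpow_neg (by linarith), ← div_eq_mul_inv,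
          div_le_iff₀ (Real.rpow_pos_of_pos (by linarith) _)] at h1
        refine h1.trans (mul_le_mul_of_nonneg_left ?_ hC.le)
        rw [← Real.rpow_natCast]
        exact Real.rpow_le_rpow_of_exponent_le hL1 ha
      · calc |θ 2| ≤ C * 1 := by rw [mul_one]; exact hθ2
          _ ≤ C * Real.log N ^ a := mul_le_mul_of_nonneg_left hLa hC.le) hKN hqN'⟩

end Pool.Agent.LX
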