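import Pool.Agent.Lib_helper71.LSP3.AS1
import Pool.Agent.Lib_helper53.LE.Defs
import Pool.Agent.Lib_helper53.LEF.EG

/-! LSP3, assembly: the sizes and the linear functional. -/

set_option autoImplicit false

namespace Pool.Agent.LX

open Complex MeasureTheory Set Filter Topology
open Pool.Agent.LSP (tau MX sg1 wX QN KerL ExVec ExData ExZ)
open Pool.Agent.KSL (WW)
open Pool.Agent.LEV (Um)
open Pool.Agent.LVB (IsST)
open Pool.Agent.LK (V KerC PQ)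
open Pool.Agent.LE
open Pool.Agent.LG (Par Ai J3)

theorem hp_sum (E : ℕ) (J : Finset ℕ) (θ : ℕ → ℝ) (x : ℕ → ℕ → ℝ) (y : ℕ → ℝ) (n : ℕ) :
    HP E (fun e => ∑ i ∈ J, θ i * x i e) y n = ∑ i ∈ J, θ i * HP E (x i) y n := by
  unfold HP
  simp only [Finset.mul_sum, Finset.sum_mul]
  conv_rhs => rw [Finset.sum_comm]
  refine Finset.sum_congr rfl fun j _ => ?_
  conv_rhs => rw [Finset.sum_comm]
  refine Finset.sum_congr rfl fun p _ => ?_
  refine Finset.sum_congr rfl fun i _ => ?_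
  ring

theorem as_neg (C : ℝ) {a b : ℝ} (h : a < b) : ∃ N₀ : ℕ, ∀ N : ℕ, N₀ ≤ N →
    C * (N : ℝ) ^ (-b) ≤ (N : ℝ) ^ (-a) := by
  obtain ⟨N₀, hN₀⟩ := as_grow C 0 (a := b - a) (by linarith)
  refine ⟨N₀ + 1, fun N hN => ?_⟩
  have hN0 : (0 : ℝ) < N := by exact_mod_cast (by omega : 0 < N)
  have h1 : C ≤ (N : ℝ) ^ (b - a) := by simpa using hN₀ N (by omega)
  calc C * (N : ℝ) ^ (-b) ≤ (N : ℝ) ^ (b - a) * (N : ℝ) ^ (-b) :=
        mul_le_mul_of_nonneg_right h1 (by positivity)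
    _ = (N : ℝ) ^ (-a) := by
        rw [← Real.rpow_add hN0]
        congr 1
        ring

theorem sg1_le {n m : ℕ} (h : n ≤ m) : sg1 n ≤ (m : ℝ) ^ 2 := by
  unfold sg1
  calc ∑ d ∈ n.divisors, (d : ℝ) ≤ ∑ _d ∈ n.divisors, (n : ℝ) :=
        Finset.sum_le_sum fun d hd => by exact_mod_cast Nat.divisor_le hd
    _ = n.divisors.card * (n : ℝ) := by rw [Finset.sum_const, nsmul_eq_mul]
    _ ≤ (m : ℝ) * m := by
        have h1 : (n.divisors.card : ℝ) ≤ m := by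
          exact_mod_cast (Nat.card_divisors_le_self n).trans h
        have h2 : (n : ℝ) ≤ m := by exact_mod_cast h
        exact mul_le_mul h1 h2 (Nat.cast_nonneg _) (Nat.cast_nonneg _)
    _ = (m : ℝ) ^ 2 := by ring

theorem sg1_nn (n : ℕ) : 0 ≤ sg1 n := Finset.sum_nonneg fun _ _ => Nat.cast_nonneg _

theorem sum_inv_le {E : ℕ} (hE : 1 ≤ E) : ∑ e ∈ Finset.Icc 1 E, 1 / (e : ℝ) ≤ 1 + Real.log E := by
  have h := harmonic_le_one_add_log E
  refine le_trans (le_of_eq ?_) h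
  rw [harmonic_eq_sum_Icc]
  push_cast
  exact Finset.sum_congr rfl fun e _ => one_div _

/-- the size of the dual coefficients -/
theorem ww_le {E m m₀ : ℕ} {x : ℕ → ℝ} {X : ℝ} (hx : SuppIn E x) (hE : 1 ≤ E)
    (hX : ∀ e, |x e| ≤ X) (hm : 1 ≤ m) (hmm : m ≤ m₀) :
    |WW E (wX E x) m| ≤ X * (m₀ : ℝ) ^ 2 * (1 + Real.log E) := by
  rw [ww_eq_pr hx hm]
  have hX0 : 0 ≤ X := (abs_nonneg _).trans (hX 0)
  refine (Finset.abs_sum_le_sum_abs _ _).trans ?_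
  calc ∑ e ∈ Finset.Icc 1 E, |x e / e * sg1 (Nat.gcd e m)|
      ≤ ∑ e ∈ Finset.Icc 1 E, X * (m₀ : ℝ) ^ 2 * (1 / (e : ℝ)) := by
        refine Finset.sum_le_sum fun e he => ?_
        have he' := Finset.mem_Icc.mp he
        rw [abs_mul, abs_div, abs_of_nonneg (sg1_nn _), abs_of_nonneg (Nat.cast_nonneg (α := ℝ) e)]
        have h1 : sg1 (Nat.gcd e m) ≤ (m₀ : ℝ) ^ 2 :=
          sg1_le ((Nat.le_of_dvd hm (Nat.gcd_dvd_right e m)).trans hmm)
        calc |x e| / e * sg1 (Nat.gcd e m) ≤ X / e * (m₀ : ℝ) ^ 2 :=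
              mul_le_mul (by gcongr; exact hX e) h1 (sg1_nn _) (by positivity)
          _ = X * (m₀ : ℝ) ^ 2 * (1 / (e : ℝ)) := by ring
    _ = X * (m₀ : ℝ) ^ 2 * ∑ e ∈ Finset.Icc 1 E, 1 / (e : ℝ) := by rw [Finset.mul_sum]
    _ ≤ X * (m₀ : ℝ) ^ 2 * (1 + Real.log E) :=
        mul_le_mul_of_nonneg_left (sum_inv_le hE) (by positivity)

end Pool.Agent.LX
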