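import Pool.Agent.Lib_helper71.LSP3.AS2
import Pool.Agent.Lib_helper53.LEF.EB
import Pool.Agent.Lib_helper53.LEF.ED
import Pool.Agent.Lib_helper53.LEF.EG
import Pool.Agent.Lib_helper53.LEF.EZ

/-! LSP3, assembly: the linear functional. -/

set_option autoImplicit false

namespace Pool.Agent.LX

open Complex MeasureTheory Set Filter Topology
open Pool.Agent.LSP (tau MX sg1 wX QN KerL ExVec ExData ExZ)
open Pool.Agent.KSL (WW)
open Pool.Agent.LEV (Um)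
open Pool.Agent.LVB (IsST)
open Pool.Agent.LK (V KerC PQ)
open Pool.Agent.LE
open Pool.Agent.LG (Par Ai J3)

variable {q : ℕ} [NeZero q]

/-- the linear functional of the twist `i` -/
noncomputable def RR (χ : DirichletCharacter ℂ q) (P : Measure (ℕ → ℝ)) (I : Finset ℕ) (K : ℕ)
    (B : ℕ → ℝ) (i N : ℕ) : ℂ :=
  1 / (2 * Real.pi * Complex.I) * ∮ z in C(0, 1 / Real.log N), H1 χ P I K B (Yy q N) z / z ^ (i + 1)

/-- a bound for finitely many coefficients -/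
theorem fin_sup {m₀ : ℕ} {s : ℕ → ℝ} (hs : SuppIn m₀ s) : ∃ S : ℝ, 0 ≤ S ∧ ∀ m, |s m| ≤ S := by
  refine ⟨∑ m ∈ Finset.Icc 1 m₀, |s m|, Finset.sum_nonneg fun m _ => abs_nonneg _, fun m => ?_⟩
  by_cases h : s m = 0
  · rw [h, abs_zero]
    exact Finset.sum_nonneg fun m _ => abs_nonneg _
  · exact Finset.single_le_sum (f := fun m => |s m|) (fun m _ => abs_nonneg _)
      (Finset.mem_Icc.mpr (hs m h))

/-- the vector of the polynomial `S` -/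
theorem sh_supp {m₀ : ℕ} {s : ℕ → ℝ} (hs : SuppIn m₀ s) :
    SuppIn m₀ (fun m => Real.sqrt m * s m) := by
  intro m hm
  apply hs m
  intro h
  apply hm
  show Real.sqrt m * s m = 0
  rw [h, mul_zero]

theorem pow_dl {N : ℕ} (hN : 1 ≤ N) (k : ℕ) (a b : ℝ) (h : a + k * dl ≤ b) :
    (N : ℝ) ^ a * ((N : ℝ) ^ dl) ^ k ≤ (N : ℝ) ^ b := by
  have hN1 : (1 : ℝ) ≤ N := by exact_mod_cast hN
  have hN0 : (0 : ℝ) < N := by linarith
  rw [← Real.rpow_natCast, ← Real.rpow_mul hN0.le, ← Real.rpow_add hN0]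
  apply Real.rpow_le_rpow_of_exponent_le hN1
  linarith

theorem xx_supp (χ : DirichletCharacter ℂ q) (J : Finset ℕ) (θ : ℕ → ℝ) (N : ℕ) {K : ℕ}
    (hK : 1 ≤ K) {b : ℕ → ℝ} (hb : SuppIn K b) :
    SuppIn (Aa q N * K ^ 2) (xx χ J θ N K b) := by
  intro e he
  have h1 := hp_supp_pr (E := Aa q N * K ^ 2) (uu_supp χ J θ N) hb e he
  refine ⟨h1.1, h1.2.trans ?_⟩
  have : K ≤ K ^ 2 := Nat.le_self_pow two_ne_zero K
  exact Nat.mul_le_mul_left _ this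

theorem xx_assoc (χ : DirichletCharacter ℂ q) (J : Finset ℕ) (θ : ℕ → ℝ) (N : ℕ) {K m₀ : ℕ}
    (hK : 1 ≤ K) (hm₀ : 1 ≤ m₀) {b s : ℕ → ℝ} (hb : SuppIn K b) (hs : SuppIn m₀ s) :
    HP (Aa q N * K ^ 2 * m₀) (xx χ J θ N K b) s =
      fun n => ∑ i ∈ J, θ i * HP (Aa q N * K ^ 2 * m₀) (xv χ i (Yy q N) (Aa q N))
        (HP (K * m₀) b s) n := by
  have hA1 : Aa q N ≤ Aa q N * K ^ 2 := Nat.le_mul_of_pos_right _ (by positivity)
  have hA2 : Aa q N * K ^ 2 ≤ Aa q N * K ^ 2 * m₀ := Nat.le_mul_of_pos_right _ (by omega)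
  unfold xx
  rw [hp_indep_pr (uu_supp χ J θ N) hA1 (hA1.trans hA2)]
  rw [hp_assoc_pr (uu_supp χ J θ N) hb hs (E := Aa q N * K ^ 2 * m₀) (by
    have : K ≤ K ^ 2 := Nat.le_self_pow two_ne_zero K
    exact Nat.mul_le_mul_right _ (Nat.mul_le_mul_left _ this))]
  rcases Nat.eq_zero_or_pos (Aa q N) with hA | hA
  · funext n
    have h0 : ∀ e, uu χ J θ N e = 0 := by
      intro e
      by_contra h
      have := uu_supp χ J θ N e h
      omega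
    have h1 : ∀ i e, xv χ i (Yy q N) (Aa q N) e = 0 := by
      intro i e
      by_contra h
      have := xv_supp χ i _ _ e h
      omega
    simp [HP, h0, h1]
  · have hE : HP (Aa q N * K ^ 2 * m₀) b s = HP (K * m₀) b s := by
      apply hp_indep_pr hb
      · calc K ≤ K ^ 2 := Nat.le_self_pow two_ne_zero K
          _ ≤ Aa q N * K ^ 2 := Nat.le_mul_of_pos_left _ hA
          _ ≤ _ := hA2
      · exact Nat.le_mul_of_pos_right _ (by omega)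
    rw [hE]
    funext n
    have h2 : uu χ J θ N = fun e => ∑ i ∈ J, θ i * xv χ i (Yy q N) (Aa q N) e := rfl
    rw [h2, hp_sum]

/-- the linear functional -/
theorem asm_lin (J : Finset ℕ) {m₀ : ℕ} (hm₀ : 1 ≤ m₀) {s : ℕ → ℝ} (hs : SuppIn m₀ s) :
    ∃ N₀ : ℕ, ∀ N : ℕ, N₀ ≤ N → ∀ (q : ℕ) [NeZero q] (χ : DirichletCharacter ℂ q), PQ χ →
    (q : ℝ) ≤ (N : ℝ) ^ dl → ∀ (I : Finset ℕ) (P : Measure (ℕ → ℝ)), (∀ p ∈ I, p.Prime) →
    IsST I P → ∀ K : ℕ, 1 ≤ K → (K : ℝ) ≤ (N : ℝ) ^ dl →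
    (∀ p : ℕ, p.Prime → p ≤ K * m₀ → p ∈ I) → ∀ b : ℕ → ℝ, SuppIn K b →
    (∀ k, |b k| ≤ (N : ℝ) ^ dl) → ∀ θ : ℕ → ℝ, (∀ i ∈ J, |θ i| ≤ (N : ℝ) ^ dl) →
    |∑ m ∈ Finset.Icc 1 m₀, s m * WW (Aa q N * K ^ 2)
        (wX (Aa q N * K ^ 2) (xx χ J θ N K b)) m / Real.sqrt m -
      ∑ i ∈ J, θ i * (RR χ P I (K * m₀) (HP (K * m₀) b (fun m => Real.sqrt m * s m)) i N).re| ≤
      (N : ℝ) ^ (-(1 / 20) : ℝ) := by
  choose Cl hCl using e_lin_pr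
  obtain ⟨S, hS0, hS⟩ := fin_sup (sh_supp hs)
  obtain ⟨N₁, hN₁⟩ := as_par
  have hthr : ∀ i : ℕ, ∃ N₀ : ℕ, ∀ N : ℕ, N₀ ≤ N →
      (J.card + 1) * (|Cl i| * (S * m₀ ^ 2) * m₀ ^ 30) * (N : ℝ) ^ (-(1 / 10) : ℝ) ≤
        (N : ℝ) ^ (-(1 / 20) : ℝ) := fun i => as_neg _ (by norm_num)
  choose Ft hFt using hthr
  obtain ⟨N₂, hN₂⟩ := as_grow 5 0 (a := 1) one_pos
  have hl : Tendsto (fun N : ℕ => Real.log (N : ℝ)) atTop atTop :=
    Real.tendsto_log_atTop.comp tendsto_natCast_atTop_atTop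
  obtain ⟨N₃, hN₃⟩ := Filter.eventually_atTop.mp (hl.eventually_ge_atTop 5)
  refine ⟨N₁ + J.sup Ft + N₃ + 1, fun N hN q _ χ hχ hq I P hI hP K hK hKN hKI b hb hbN θ hθ => ?_⟩
  have hq1 : 1 ≤ q := Nat.one_le_iff_ne_zero.mpr (NeZero.ne q)
  have hN1' : 1 ≤ N := by omega
  have hN1 : (1 : ℝ) ≤ N := by exact_mod_cast hN1'
  have hN0 : (0 : ℝ) < N := by linarith
  obtain ⟨hpar, hYA, hA, hA1⟩ := hN₁ N (by omega) q hq1 hq
  have hY := as_Y hq1 hN1'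
  have hlog := hN₃ N (by omega)
  set E := Aa q N * K ^ 2 with hE
  set s' : ℕ → ℝ := fun m => Real.sqrt m * s m with hs'
  set B := HP (K * m₀) b s' with hB
  have h1 := lin_ww_pr (E := E) (M := m₀) (E' := E * m₀) (x := xx χ J θ N K b) (s := s)
    (xx_supp χ J θ N hK hb) hs le_rfl
  rw [h1, xx_assoc χ J θ N hK hm₀ hb (sh_supp hs)]
  have h2 : ∑ e ∈ Finset.Icc 1 (E * m₀), (∑ i ∈ J, θ i * HP (Aa q N * K ^ 2 * m₀)
      (xv χ i (Yy q N) (Aa q N)) (HP (K * m₀) b s') e) / (e : ℝ) =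
      ∑ i ∈ J, θ i * ∑ e ∈ Finset.Icc 1 (E * m₀),
        HP (E * m₀) (xv χ i (Yy q N) (Aa q N)) B e / e := by
    simp only [Finset.sum_div, Finset.mul_sum]
    rw [Finset.sum_comm]
    refine Finset.sum_congr rfl fun i _ => Finset.sum_congr rfl fun e _ => ?_
    rw [mul_div_assoc]
  have h3 : ∑ e ∈ Finset.Icc 1 (E * m₀), (fun n => ∑ i ∈ J, θ i * HP (Aa q N * K ^ 2 * m₀)
      (xv χ i (Yy q N) (Aa q N)) (HP (K * m₀) b s') n) e / (e : ℝ) =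
      ∑ i ∈ J, θ i * ∑ e ∈ Finset.Icc 1 (E * m₀),
        HP (E * m₀) (xv χ i (Yy q N) (Aa q N)) B e / e := h2
  rw [h3, ← Finset.sum_sub_distrib]
  have hBs : SuppIn (K * m₀) B := hp_supp_pr hb (sh_supp hs)
  have hBb : ∀ k, |B k| ≤ (N : ℝ) ^ dl * S * m₀ ^ 2 := fun k =>
    hp_abs_pr hb (sh_supp hs) hbN hS k
  have hKm : 1 ≤ K * m₀ := Nat.mul_pos hK hm₀
  have hterm : ∀ i ∈ J, |θ i * ∑ e ∈ Finset.Icc 1 (E * m₀),
        HP (E * m₀) (xv χ i (Yy q N) (Aa q N)) B e / e -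
        θ i * (RR χ P I (K * m₀) B i N).re| ≤ 1 / (J.card + 1) * (N : ℝ) ^ (-(1 / 20) : ℝ) := by
    intro i hi
    have h4 := hCl i q χ hχ I P hI hP (K * m₀) hKm hKI B _ hBs hBb (Yy q N) hY (Aa q N) hYA
      (E * m₀) (by
        rw [hE]
        have : K ≤ K ^ 2 := Nat.le_self_pow two_ne_zero K
        calc Aa q N * (K * m₀) = Aa q N * K * m₀ := by ring
          _ ≤ Aa q N * K ^ 2 * m₀ := Nat.mul_le_mul_right _ (Nat.mul_le_mul_left _ this))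
      (1 / Real.log N) (by positivity) (by
        rw [div_lt_iff₀ (by linarith)]
        linarith)
    have h5 := (Complex.abs_re_le_norm _).trans h4
    rw [Complex.sub_re] at h5
    have h6 : (∑ e ∈ Finset.Icc 1 (E * m₀),
        ((HP (E * m₀) (xv χ i (Yy q N) (Aa q N)) B e / e : ℝ) : ℂ)).re =
        ∑ e ∈ Finset.Icc 1 (E * m₀), HP (E * m₀) (xv χ i (Yy q N) (Aa q N)) B e / e := by
      rw [← Complex.ofReal_sum, Complex.ofReal_re]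
    rw [h6] at h5
    rw [← mul_sub, abs_mul]
    have h7 := mul_le_mul (hθ i hi) h5 (abs_nonneg _) (by positivity)
    refine h7.trans ?_
    -- the size
    have h8 : Yy q N ^ (-(1 / 4) : ℝ) ≤ (N : ℝ) ^ (-(1 / 8) : ℝ) := by
      have h9 : (N : ℝ) ^ (1 / 2 : ℝ) ≤ Yy q N := by
        unfold Yy
        rw [← Real.sqrt_eq_rpow]
        have : (1 : ℝ) ≤ q := by exact_mod_cast hq1
        exact le_mul_of_one_le_left (Real.sqrt_nonneg _) this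
      calc Yy q N ^ (-(1 / 4) : ℝ) ≤ ((N : ℝ) ^ (1 / 2 : ℝ)) ^ (-(1 / 4) : ℝ) :=
            Real.rpow_le_rpow_of_nonpos (by positivity) h9 (by norm_num)
        _ = (N : ℝ) ^ (-(1 / 8) : ℝ) := by
            rw [← Real.rpow_mul hN0.le]
            norm_num
    have hr0 : 0 < (N : ℝ) ^ dl := by positivity
    have h9 : (N : ℝ) ^ dl * (Cl i * ((N : ℝ) ^ dl * S * m₀ ^ 2) * (q : ℝ) ^ 4 *
        ((K * m₀ : ℕ) : ℝ) ^ 30 * Yy q N ^ (-(1 / 4) : ℝ)) ≤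
        (|Cl i| * (S * m₀ ^ 2) * m₀ ^ 30) * (N : ℝ) ^ (-(1 / 10) : ℝ) := by
      have h10 := pow_dl hN1' 36 (-(1 / 8)) (-(1 / 10)) (by unfold dl; norm_num)
      have hm0 : (0 : ℝ) ≤ m₀ := Nat.cast_nonneg _
      calc (N : ℝ) ^ dl * (Cl i * ((N : ℝ) ^ dl * S * m₀ ^ 2) * (q : ℝ) ^ 4 *
            ((K * m₀ : ℕ) : ℝ) ^ 30 * Yy q N ^ (-(1 / 4) : ℝ))
          ≤ (N : ℝ) ^ dl * (|Cl i| * ((N : ℝ) ^ dl * S * m₀ ^ 2) * ((N : ℝ) ^ dl) ^ 4 *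
            ((N : ℝ) ^ dl * m₀) ^ 30 * (N : ℝ) ^ (-(1 / 8) : ℝ)) := by
            push_cast
            gcongr
            exact le_abs_self _
        _ = (|Cl i| * (S * m₀ ^ 2) * m₀ ^ 30) *
            ((N : ℝ) ^ (-(1 / 8) : ℝ) * ((N : ℝ) ^ dl) ^ 36) := by ring
        _ ≤ (|Cl i| * (S * m₀ ^ 2) * m₀ ^ 30) * (N : ℝ) ^ (-(1 / 10) : ℝ) :=
            mul_le_mul_of_nonneg_left h10 (by positivity)
    refine h9.trans ?_
    have h11 := hFt i N (by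
      have : Ft i ≤ J.sup Ft := Finset.le_sup hi
      omega)
    rw [div_mul_eq_mul_div, one_mul, le_div_iff₀ (by positivity)]
    calc |Cl i| * (S * m₀ ^ 2) * m₀ ^ 30 * (N : ℝ) ^ (-(1 / 10) : ℝ) * (J.card + 1) =
        (J.card + 1) * (|Cl i| * (S * m₀ ^ 2) * m₀ ^ 30) * (N : ℝ) ^ (-(1 / 10) : ℝ) := by ring
      _ ≤ _ := h11
  refine (Finset.abs_sum_le_sum_abs _ _).trans ((Finset.sum_le_sum hterm).trans ?_)
  rw [Finset.sum_const, nsmul_eq_mul]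
  have h12 : (0 : ℝ) ≤ (N : ℝ) ^ (-(1 / 20) : ℝ) := by positivity
  calc (J.card : ℝ) * (1 / (J.card + 1) * (N : ℝ) ^ (-(1 / 20) : ℝ)) =
      (J.card / (J.card + 1)) * (N : ℝ) ^ (-(1 / 20) : ℝ) := by ring
    _ ≤ 1 * (N : ℝ) ^ (-(1 / 20) : ℝ) := by
        refine mul_le_mul_of_nonneg_right ?_ h12
        rw [div_le_one (by positivity)]
        linarith
    _ = _ := one_mul _

end Pool.Agent.LX
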