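import Pool.Agent.Lib_helper71.LSP3.AS3
import Pool.Agent.Lib_helper31.LGF.GF
import Pool.Agent.Lib_helper31.LGF.GS
import Pool.Agent.Lib_helper53.LEF.EB
import Pool.Agent.Lib_helper53.LEF.EE

/-! LSP3, assembly: the quadratic form. -/

set_option autoImplicit false

namespace Pool.Agent.LX

open Complex MeasureTheory Set Filter Topology
open Pool.Agent.LSP (tau MX sg1 wX QN KerL ExVec ExData ExZ)
open Pool.Agent.KSL (WW)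
open Pool.Agent.LEV (Um)
open Pool.Agent.LVB (IsST)
open Pool.Agent.LK (V KerC PQ)
open Pool.Agent.LE
open Pool.Agent.LG (Par Ai J3)

variable {q : ℕ} [NeZero q]

/-- the entry `(i, i')` of the quadratic form -/
noncomputable def JJ (χ : DirichletCharacter ℂ q) (P : Measure (ℕ → ℝ)) (I : Finset ℕ) (K : ℕ)
    (B : ℕ → ℝ) (i i' N : ℕ) : ℂ :=
  J3 χ P I K B i i' N (Yy q N) (1 / Real.log N) (2 / Real.log N)

/-- the quadratic form -/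
theorem asm_quad (J : Finset ℕ) :
    ∃ N₀ : ℕ, ∀ N : ℕ, N₀ ≤ N → N.Prime → ∀ (q : ℕ) [NeZero q] (χ : DirichletCharacter ℂ q),
    PQ χ → (q : ℝ) ≤ (N : ℝ) ^ dl → (∀ i ∈ J, χ (-(N : ZMod q)) = (-1) ^ i) →
    ∀ (I : Finset ℕ) (P : Measure (ℕ → ℝ)), (∀ p ∈ I, p.Prime) →
    IsST I P → ∀ K : ℕ, 1 ≤ K → (K : ℝ) ≤ (N : ℝ) ^ dl →
    (∀ p : ℕ, p.Prime → p ≤ K * K → p ∈ I) → ∀ b : ℕ → ℝ, SuppIn K b →
    (∀ k, |b k| ≤ (N : ℝ) ^ dl) → ∑ e ∈ Finset.Icc 1 K, b e * sg1 e / e = 0 →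
    ∀ θ : ℕ → ℝ, (∀ i ∈ J, |θ i| ≤ (N : ℝ) ^ dl) →
    ∀ ρ : ℝ → ℝ, KerC ((N : ℝ) ^ nu) ρ → ∀ B₀ : ℕ, 1 + ((N : ℝ) ^ nu) ^ 2 ≤ B₀ →
    ∑ e ∈ Finset.Icc 1 (Aa q N * K ^ 2), xx χ J θ N K b e * sg1 e / e = 0 ∧
    |QN ρ ((N : ℝ) ^ nu) B₀ (Aa q N * K ^ 2) (xx χ J θ N K b) N -
      ∑ i ∈ J, ∑ i' ∈ J, θ i * θ i' * (JJ χ P I (K * K) (HP K b b) i i' N).re| ≤
      (N : ℝ) ^ (-(nu / 11)) := by
  obtain ⟨N₀, hquad⟩ := Pool.Agent.LG.g_quad_pr J nu_pos (by unfold nu; norm_num)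
  choose Cq hCq using Pool.Agent.LG.g_triple_pr
  obtain ⟨N₁, hN₁⟩ := as_par
  have hthr : ∀ p : ℕ × ℕ, ∃ N₀ : ℕ, ∀ N : ℕ, N₀ ≤ N →
      (J.card ^ 2 + 1) * |Cq p.1 p.2| * (N : ℝ) ^ (-(1 / 20) : ℝ) ≤
        (N : ℝ) ^ (-(1 / 30) : ℝ) := fun p => as_neg _ (by norm_num)
  choose Ft hFt using hthr
  have hthr2 : ∀ i : ℕ, ∃ N₀ : ℕ, ∀ N : ℕ, N₀ ≤ N →
      1 * (1 + 2 * Real.log N) ^ (i + 1) ≤ (N : ℝ) ^ (1 / 1000 : ℝ) := fun i =>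
    as_grow 1 (i + 1) (by norm_num)
  choose Fl hFl using hthr2
  obtain ⟨N₂, hN₂⟩ := as_neg 2 (a := nu / 11) (b := nu / 10) (by have := nu_pos; linarith)
  have hl : Tendsto (fun N : ℕ => Real.log (N : ℝ)) atTop atTop :=
    Real.tendsto_log_atTop.comp tendsto_natCast_atTop_atTop
  obtain ⟨N₃, hN₃⟩ := Filter.eventually_atTop.mp (hl.eventually_ge_atTop 50)
  refine ⟨N₀ + N₁ + (J ×ˢ J).sup Ft + J.sup Fl + N₂ + N₃ + 1,
    fun N hN hNp q _ χ hχ hq hpar I P hI hP K hK hKN hKI b hb hbN hb0 θ hθ ρ hρ B₀ hB₀ => ?_⟩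
  have hq1 : 1 ≤ q := Nat.one_le_iff_ne_zero.mpr (NeZero.ne q)
  have hN1' : 1 ≤ N := by omega
  have hN1 : (1 : ℝ) ≤ N := by exact_mod_cast hN1'
  have hN0 : (0 : ℝ) < N := by linarith
  obtain ⟨hPar, hYA, hA, hA1⟩ := hN₁ N (by omega) q hq1 hq
  have hY := as_Y hq1 hN1'
  have hlog := hN₃ N (by omega)
  have hdl2 : (N : ℝ) ^ dl ≤ (N : ℝ) ^ (nu / 2000) :=
    Real.rpow_le_rpow_of_exponent_le hN1 (by rw [dl_nu]; have := nu_pos; linarith)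
  -- the zero mode
  have hKK : K ≤ K ^ 2 := Nat.le_self_pow two_ne_zero K
  have hz : ∑ e ∈ Finset.Icc 1 (Aa q N * K ^ 2), xx χ J θ N K b e * sg1 e / e = 0 := by
    unfold xx
    rw [zm_hp_pr (uu_supp χ J θ N) hb (Nat.le_mul_of_pos_right _ (by positivity))
      (Nat.mul_le_mul_left _ hKK), hb0, mul_zero]
  refine ⟨hz, ?_⟩
  -- the length
  have hEN : Aa q N * K ^ 2 ≤ N := by
    have h1 : ((Aa q N * K ^ 2 : ℕ) : ℝ) ≤ (N : ℝ) ^ (1 : ℝ) := by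
      push_cast
      calc (Aa q N : ℝ) * (K : ℝ) ^ 2 ≤ (N : ℝ) ^ (1 / 2 + nu / 20) * ((N : ℝ) ^ dl) ^ 2 := by
            gcongr
        _ ≤ (N : ℝ) ^ (1 : ℝ) := pow_dl hN1' 2 _ _ (by unfold nu dl; norm_num)
    rw [Real.rpow_one] at h1
    exact_mod_cast h1
  have h1 := hquad N (by omega) hNp q χ hχ hpar (Yy q N) (Aa q N) hPar ρ hρ K hK
    (hKN.trans hdl2) b hb (fun k => (hbN k).trans hdl2) θ (fun i hi => (hθ i hi).trans hdl2)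
    B₀ (Aa q N * K ^ 2) le_rfl hEN hB₀ (xx χ J θ N K b) rfl hz
  -- the entries
  set E := Aa q N * K ^ 2 with hE
  have hKE : K ≤ E := hKK.trans (Nat.le_mul_of_pos_left _ (by omega))
  have hbb : HP E b b = HP K b b := hp_indep_pr hb hKE le_rfl
  rw [hbb] at h1
  have hBs : SuppIn (K * K) (HP K b b) := hp_supp_pr hb hb
  have hBb : ∀ k, |HP K b b k| ≤ (N : ℝ) ^ dl * (N : ℝ) ^ dl * K ^ 2 := fun k =>
    hp_abs_pr hb hb hbN hbN k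
  have hK2 : 1 ≤ K * K := Nat.mul_pos hK hK
  have hent : ∀ i ∈ J, ∀ i' ∈ J, |θ i * θ i' * ∑ e ∈ Finset.Icc 1 E,
        HP E (xv χ i' (Yy q N) (Aa q N)) (HP K b b) e * (Ai χ i N e (Yy q N)).re -
        θ i * θ i' * (JJ χ P I (K * K) (HP K b b) i i' N).re| ≤
        1 / (J.card ^ 2 + 1) * (N : ℝ) ^ (-(1 / 30) : ℝ) := by
    intro i hi i' hi'
    have h4 := hCq i i' q χ hχ I P hI hP (K * K) hK2 hKI (HP K b b) _ hBs hBb N hN1' (Yy q N) rfl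
      (Aa q N) hYA E (by rw [hE, sq]) (1 / Real.log N) (2 / Real.log N) (by positivity)
      (by rw [div_le_div_iff₀ (by linarith) (by norm_num)]; linarith)
      (by gcongr; norm_num)
      (by rw [div_lt_div_iff₀ (by linarith) (by norm_num)]; linarith)
    have h5 := (Complex.abs_re_le_norm _).trans h4
    rw [Complex.sub_re] at h5
    have h6 : (∑ e ∈ Finset.Icc 1 E, (HP E (xv χ i' (Yy q N) (Aa q N)) (HP K b b) e : ℂ) *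
        Ai χ i N e (Yy q N)).re = ∑ e ∈ Finset.Icc 1 E,
        HP E (xv χ i' (Yy q N) (Aa q N)) (HP K b b) e * (Ai χ i N e (Yy q N)).re := by
      rw [Complex.re_sum]
      exact Finset.sum_congr rfl fun e _ => Complex.re_ofReal_mul _ _
    rw [h6] at h5
    rw [← mul_sub, abs_mul, abs_mul]
    have hθθ : |θ i| * |θ i'| ≤ (N : ℝ) ^ dl * (N : ℝ) ^ dl :=
      mul_le_mul (hθ i hi) (hθ i' hi') (abs_nonneg _) (by positivity)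
    have h7 := mul_le_mul hθθ h5 (abs_nonneg _) (by positivity)
    refine h7.trans ?_
    have h8 : (1 / Real.log N)⁻¹ ^ (i + 1) ≤ (N : ℝ) ^ (1 / 1000 : ℝ) := by
      rw [one_div, inv_inv]
      refine le_trans ?_ (hFl i N (by
        have : Fl i ≤ J.sup Fl := Finset.le_sup hi
        omega))
      rw [one_mul]
      apply pow_le_pow_left₀ (by linarith)
      linarith
    have h9 : (N : ℝ) ^ dl * (N : ℝ) ^ dl * (Cq i i' * ((N : ℝ) ^ dl * (N : ℝ) ^ dl * K ^ 2) *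
        (q : ℝ) ^ 6 * ((K * K : ℕ) : ℝ) ^ 30 * (1 / Real.log N)⁻¹ ^ (i + 1) *
        (N : ℝ) ^ (-(1 / 13) : ℝ)) ≤ |Cq i i'| * (N : ℝ) ^ (-(1 / 20) : ℝ) := by
      have h10 := pow_dl hN1' 72 (-(1 / 13) + 1 / 1000) (-(1 / 20)) (by unfold dl; norm_num)
      rw [Real.rpow_add hN0] at h10
      calc (N : ℝ) ^ dl * (N : ℝ) ^ dl * (Cq i i' * ((N : ℝ) ^ dl * (N : ℝ) ^ dl * K ^ 2) *
            (q : ℝ) ^ 6 * ((K * K : ℕ) : ℝ) ^ 30 * (1 / Real.log N)⁻¹ ^ (i + 1) *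
            (N : ℝ) ^ (-(1 / 13) : ℝ))
          ≤ (N : ℝ) ^ dl * (N : ℝ) ^ dl * (|Cq i i'| * ((N : ℝ) ^ dl * (N : ℝ) ^ dl *
            ((N : ℝ) ^ dl) ^ 2) * ((N : ℝ) ^ dl) ^ 6 * ((N : ℝ) ^ dl * (N : ℝ) ^ dl) ^ 30 *
            (N : ℝ) ^ (1 / 1000 : ℝ) * (N : ℝ) ^ (-(1 / 13) : ℝ)) := by
            push_cast
            gcongr
            exact le_abs_self _
        _ = |Cq i i'| * ((N : ℝ) ^ (-(1 / 13) : ℝ) * (N : ℝ) ^ (1 / 1000 : ℝ) *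
            ((N : ℝ) ^ dl) ^ 72) := by ring
        _ ≤ |Cq i i'| * (N : ℝ) ^ (-(1 / 20) : ℝ) := mul_le_mul_of_nonneg_left h10 (abs_nonneg _)
    refine h9.trans ?_
    have h11 := hFt (i, i') N (by
      have : Ft (i, i') ≤ (J ×ˢ J).sup Ft := Finset.le_sup (Finset.mk_mem_product hi hi')
      omega)
    rw [div_mul_eq_mul_div, one_mul, le_div_iff₀ (by positivity)]
    calc |Cq i i'| * (N : ℝ) ^ (-(1 / 20) : ℝ) * (J.card ^ 2 + 1) =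
        (J.card ^ 2 + 1) * |Cq i i'| * (N : ℝ) ^ (-(1 / 20) : ℝ) := by ring
      _ ≤ _ := h11
  have h12 : |∑ i ∈ J, ∑ i' ∈ J, θ i * θ i' * ∑ e ∈ Finset.Icc 1 E,
        HP E (xv χ i' (Yy q N) (Aa q N)) (HP K b b) e * (Ai χ i N e (Yy q N)).re -
        ∑ i ∈ J, ∑ i' ∈ J, θ i * θ i' * (JJ χ P I (K * K) (HP K b b) i i' N).re| ≤
        (N : ℝ) ^ (-(1 / 30) : ℝ) := by
    rw [← Finset.sum_sub_distrib]
    have h13 : ∀ i ∈ J, |∑ i' ∈ J, θ i * θ i' * ∑ e ∈ Finset.Icc 1 E,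
        HP E (xv χ i' (Yy q N) (Aa q N)) (HP K b b) e * (Ai χ i N e (Yy q N)).re -
        ∑ i' ∈ J, θ i * θ i' * (JJ χ P I (K * K) (HP K b b) i i' N).re| ≤
        J.card * (1 / (J.card ^ 2 + 1) * (N : ℝ) ^ (-(1 / 30) : ℝ)) := by
      intro i hi
      rw [← Finset.sum_sub_distrib]
      refine (Finset.abs_sum_le_sum_abs _ _).trans
        ((Finset.sum_le_sum (hent i hi)).trans (le_of_eq ?_))
      rw [Finset.sum_const, nsmul_eq_mul]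
    refine (Finset.abs_sum_le_sum_abs _ _).trans ((Finset.sum_le_sum h13).trans ?_)
    rw [Finset.sum_const, nsmul_eq_mul]
    have h14 : (0 : ℝ) ≤ (N : ℝ) ^ (-(1 / 30) : ℝ) := by positivity
    calc (J.card : ℝ) * (J.card * (1 / (J.card ^ 2 + 1) * (N : ℝ) ^ (-(1 / 30) : ℝ))) =
        (J.card ^ 2 / (J.card ^ 2 + 1)) * (N : ℝ) ^ (-(1 / 30) : ℝ) := by ring
      _ ≤ 1 * (N : ℝ) ^ (-(1 / 30) : ℝ) := by
          refine mul_le_mul_of_nonneg_right ?_ h14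
          rw [div_le_one (by positivity)]
          linarith
      _ = _ := one_mul _
  have h15 : (N : ℝ) ^ (-(1 / 30) : ℝ) ≤ (N : ℝ) ^ (-(nu / 10)) :=
    Real.rpow_le_rpow_of_exponent_le hN1 (by unfold nu; norm_num)
  have h16 := hN₂ N (by omega)
  calc |QN ρ ((N : ℝ) ^ nu) B₀ E (xx χ J θ N K b) N -
      ∑ i ∈ J, ∑ i' ∈ J, θ i * θ i' * (JJ χ P I (K * K) (HP K b b) i i' N).re| ≤
      |QN ρ ((N : ℝ) ^ nu) B₀ E (xx χ J θ N K b) N - ∑ i ∈ J, ∑ i' ∈ J, θ i * θ i' *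
        ∑ e ∈ Finset.Icc 1 E, HP E (xv χ i' (Yy q N) (Aa q N)) (HP K b b) e *
          (Ai χ i N e (Yy q N)).re| + _ := abs_sub_le _ _ _
    _ ≤ (N : ℝ) ^ (-(nu / 10)) + (N : ℝ) ^ (-(1 / 30) : ℝ) := add_le_add h1 h12
    _ ≤ (N : ℝ) ^ (-(nu / 11)) := by linarith

end Pool.Agent.LX
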