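import Pool.Agent.Lib_helper71.LSP3.AS5
import Pool.Agent.Lib_helper53.LEF.EB
import Pool.Agent.Lib_helper53.LEF.EC
import Pool.Agent.Lib_helper53.LMF.MM

/-! LSP3, assembly: all data at one level. -/

set_option autoImplicit false

namespace Pool.Agent.LX

open Complex MeasureTheory Set Filter Topology
open Pool.Agent.LSP (tau MX sg1 wX QN KerL ExVec ExData ExZ)
open Pool.Agent.KSL (WW)
open Pool.Agent.LEV (Um)
open Pool.Agent.LVB (IsST)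
open Pool.Agent.LK (V KerC PQ)
open Pool.Agent.LE
open Pool.Agent.LG (Par Ai J3)
open Pool.Agent.LM (cv Pz)

/-- the vector of the polynomial `S` -/
noncomputable def vS (s : ℕ → ℝ) (m : ℕ) : ℝ := Real.sqrt m * s m

/-- the data at one level -/
structure Dat (η : ℝ) (m₀ : ℕ) (s : ℕ → ℝ) (c C : ℝ) (A : ℕ) (N : ℕ) {q : ℕ} [NeZero q]
    (χ : DirichletCharacter ℂ q) (β : ℝ) (I : Finset ℕ) (P : Measure (ℕ → ℝ)) (K : ℕ)
    (b : ℕ → ℝ) (F₁ F₂ : ℝ) : Prop where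
  prim : ∀ p ∈ I, p.Prime
  st : IsST I P
  K1 : 1 ≤ K
  K_le : (K : ℝ) ≤ (N : ℝ) ^ dl
  q_le : (q : ℝ) ≤ (N : ℝ) ^ dl
  KI : ∀ p : ℕ, p.Prime → p ≤ K * K → p ∈ I
  KI' : ∀ p : ℕ, p.Prime → p ≤ K * m₀ → p ∈ I
  supp : SuppIn K b
  b_le : ∀ k, |b k| ≤ (N : ℝ) ^ dl
  b_tau : ∀ k, |b k| ≤ C * Real.log N ^ A * tau k ^ A
  zero : ∑ e ∈ Finset.Icc 1 K, b e * sg1 e / e = 0
  F1 : c ≤ F₁
  F2 : 0 < F₂
  g_ge : c ≤ gz χ β
  d_ge : c * (N : ℝ) ^ (-(dl / 2)) ≤ 1 - β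
  j11 : |(JJ χ P I (K * K) (HP K b b) 1 1 N).re - 2 * Mm χ β F₂| ≤ η * Mm χ β F₂
  j22 : |(JJ χ P I (K * K) (HP K b b) 2 2 N).re - Real.log N ^ 2 * Mm χ β F₂| ≤
    η * (Real.log N ^ 2 * Mm χ β F₂)
  j20 : |(JJ χ P I (K * K) (HP K b b) 2 0 N).re - (1 - β) * Real.log N * Mm χ β F₂| ≤
    η * ((1 - β) * Real.log N * Mm χ β F₂)
  j02 : |(JJ χ P I (K * K) (HP K b b) 0 2 N).re - (1 - β) * Real.log N * Mm χ β F₂| ≤
    η * ((1 - β) * Real.log N * Mm χ β F₂)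
  j00 : |(JJ χ P I (K * K) (HP K b b) 0 0 N).re - 6 * (1 - β) ^ 2 * Mm χ β F₂| ≤
    η * ((1 - β) ^ 2 * Mm χ β F₂)
  r1 : |(RR χ P I (K * m₀) (HP (K * m₀) b (vS s)) 1 N).re - gz χ β * F₁| ≤ η * (gz χ β * F₁)
  r2 : |(RR χ P I (K * m₀) (HP (K * m₀) b (vS s)) 2 N).re - Real.log N / 2 * (gz χ β * F₁)| ≤
    η * (Real.log N * (gz χ β * F₁))
  r0 : |(RR χ P I (K * m₀) (HP (K * m₀) b (vS s)) 0 N).re - (1 - β) * (gz χ β * F₁)| ≤
    η * ((1 - β) * (gz χ β * F₁))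
  fin : Mm χ β F₂ * ∑ m ∈ Finset.Icc 1 m₀, s m ^ 2 ≤ (1 + η) * (gz χ β * F₁) ^ 2

theorem re_sub_le {z : ℂ} {a b : ℝ} (h : ‖z - (a : ℂ)‖ ≤ b) : |z.re - a| ≤ b := by
  have h1 := (Complex.abs_re_le_norm _).trans h
  rwa [Complex.sub_re, Complex.ofReal_re] at h1

theorem eps_exists {η : ℝ} (hη : 0 < η) : ∃ ε : ℝ, 0 < ε ∧ (1 + ε) ^ 10 ≤ 1 + η := by
  refine ⟨min η 1 / 20, by positivity, ?_⟩
  obtain ⟨ε, hε⟩ : ∃ ε : ℝ, ε = min η 1 / 20 := ⟨_, rfl⟩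
  have h1 : 0 < ε := by rw [hε]; positivity
  have h2 : 20 * ε ≤ η := by rw [hε]; have := min_le_left η 1; linarith
  have h3 : 10 * ε ≤ 1 := by rw [hε]; have := min_le_right η 1; linarith
  rw [← hε]
  have h4 : 1 + ε ≤ Real.exp ε := by have := Real.add_one_le_exp ε; linarith
  have h5 : (1 + ε) ^ 10 ≤ Real.exp (10 * ε) := by
    rw [show (10 : ℝ) * ε = ((10 : ℕ) : ℝ) * ε by norm_num, Real.exp_nat_mul]
    exact pow_le_pow_left₀ (by linarith) h4 10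
  have h6 := Real.abs_exp_sub_one_le (x := 10 * ε) (by rw [abs_of_nonneg (by linarith)]; exact h3)
  rw [abs_of_nonneg (show (0 : ℝ) ≤ 10 * ε by linarith)] at h6
  have h7 := (abs_le.mp h6).2
  linarith

theorem tau_le_self' {k : ℕ} : tau k ≤ k := by
  unfold tau
  exact_mod_cast Nat.card_divisors_le_self k

theorem Pz_mem {z p : ℕ} (hp : p.Prime) (h : p ≤ z) : p ∈ Pz z := by
  unfold Pz
  rw [Finset.mem_filter, Finset.mem_Icc]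
  exact ⟨⟨hp.one_lt.le, h⟩, hp⟩

/-- the exponents of the conductor -/
theorem a_le (A : ℕ) : (A : ℝ) ≤ (A : ℝ) ^ 2 + 2 * A + 10 ∧
    ((1 : ℕ) : ℝ) ≤ (A : ℝ) ^ 2 + 2 * A + 10 ∧ ((2 : ℕ) : ℝ) ≤ (A : ℝ) ^ 2 + 2 * A + 10 ∧
    ((A ^ 2 + A : ℕ) : ℝ) ≤ (A : ℝ) ^ 2 + 2 * A + 10 ∧ 1 ≤ (A : ℝ) ^ 2 + 2 * A + 10 := by
  have h1 := sq_nonneg (A : ℝ)
  have h2 := Nat.cast_nonneg (α := ℝ) A
  push_cast
  refine ⟨?_, ?_, ?_, ?_, ?_⟩ <;> linarith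

/-- all data at one level -/
theorem dat_exists (hG : GramS) (h2 : X2S) (h4 : X4S) {m₀ : ℕ} (hm₀ : 1 ≤ m₀) {s : ℕ → ℝ}
    (hs : SuppIn m₀ s) (hσ : 0 < ∑ m ∈ Finset.Icc 1 m₀, s m ^ 2) {η : ℝ} (hη : 0 < η) :
    ∃ (κ₀ c C : ℝ) (A : ℕ) (N₀ : ℕ), 0 < κ₀ ∧ 0 < c ∧ 0 < C ∧ ∀ N : ℕ, N₀ ≤ N →
      ∀ (q : ℕ) [NeZero q] (χ : DirichletCharacter ℂ q) (β : ℝ), Ex κ₀ N χ β →
      ∃ (I : Finset ℕ) (P : Measure (ℕ → ℝ)) (K : ℕ) (b : ℕ → ℝ) (F₁ F₂ : ℝ),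
        Dat η m₀ s c C A N χ β I P K b F₁ F₂ := by
  obtain ⟨ε, hε, hε10⟩ := eps_exists hη
  obtain ⟨A₁, κ₁, N₁, hA₁, hκ₁, hX2⟩ := h2 ε hε
  obtain ⟨A, C, c, q₀, hC, hc, hmoll⟩ := Pool.Agent.LM.moll2_pr hε hs hσ A₁ hA₁
  obtain ⟨κ₂, N₂, hκ₂, hgram⟩ := hG C c η hC hc hη
  obtain ⟨κ₃, N₃, hκ₃, hlarge⟩ := ex_large h4 (q₀ + 3)
  obtain ⟨c₄, κ₄, N₄, hc₄, hκ₄, hX4⟩ := h4
  obtain ⟨κ₀, hκ₀, hk1, hk2, hk3, hk4, hk5⟩ : ∃ κ₀ : ℝ, 0 < κ₀ ∧ κ₀ ≤ κ₁ ∧ κ₀ ≤ κ₂ ∧ κ₀ ≤ κ₃ ∧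
      κ₀ ≤ κ₄ ∧ κ₀ * (A ^ 2 + 2 * A + 10) ≤ dl / 2 := by
    refine ⟨min (min (min κ₁ κ₂) (min κ₃ κ₄)) (dl / 2 / (A ^ 2 + 2 * A + 10)), ?_, ?_, ?_, ?_, ?_,
      ?_⟩
    · have := dl_pos
      exact lt_min (lt_min (lt_min hκ₁ hκ₂) (lt_min hκ₃ hκ₄)) (by positivity)
    · exact (min_le_left _ _).trans ((min_le_left _ _).trans (min_le_left _ _))
    · exact (min_le_left _ _).trans ((min_le_left _ _).trans (min_le_right _ _))
    · exact (min_le_left _ _).trans ((min_le_right _ _).trans (min_le_left _ _))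
    · exact (min_le_left _ _).trans ((min_le_right _ _).trans (min_le_right _ _))
    · have h5 : (0 : ℝ) < (A : ℝ) ^ 2 + 2 * A + 10 := by positivity
      calc min (min (min κ₁ κ₂) (min κ₃ κ₄)) (dl / 2 / (A ^ 2 + 2 * A + 10)) *
            (A ^ 2 + 2 * A + 10) ≤ dl / 2 / (A ^ 2 + 2 * A + 10) * (A ^ 2 + 2 * A + 10) :=
            mul_le_mul_of_nonneg_right (min_le_right _ _) h5.le
        _ = dl / 2 := by field_simp
  obtain ⟨N₅, hN₅⟩ := as_grow C 0 (a := dl / 2) (by have := dl_pos; positivity)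
  refine ⟨κ₀, min c c₄, C, A, N₁ + N₂ + N₃ + N₄ + N₅ + 3, hκ₀, lt_min hc hc₄, by linarith,
    fun N hN q _ χ β hE => ?_⟩
  have hN3 : 3 ≤ N := by omega
  have hN1 : (1 : ℝ) < N := by exact_mod_cast (by omega : 1 < N)
  have hN0 : (0 : ℝ) < N := by linarith
  have hq3 := hlarge N (by omega) q χ β (hE.mono hk3 hN3)
  have hX2' := hX2 N (by omega) q χ β (hE.mono hk1 hN3)
  obtain ⟨hd, hg⟩ := hX4 N (by omega) q χ β (hE.mono hk4 hN3)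
  have hgr := hgram N (by omega) q χ β (hE.mono hk2 hN3)
  have hq1 : (1 : ℝ) ≤ q := by exact_mod_cast (by omega : 1 ≤ q)
  have hdl := dl_pos
  have hqN := hE.q_le
  -- powers of `q`
  have hqpow : ∀ k : ℕ, (k : ℝ) ≤ A ^ 2 + 2 * A + 10 → (q : ℝ) ^ k ≤ (N : ℝ) ^ (dl / 2) := by
    intro k hk
    calc (q : ℝ) ^ k ≤ ((N : ℝ) ^ κ₀) ^ k := pow_le_pow_left₀ (by linarith) hqN k
      _ = (N : ℝ) ^ (κ₀ * k) := by rw [← Real.rpow_natCast, ← Real.rpow_mul hN0.le]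
      _ ≤ (N : ℝ) ^ (dl / 2) := by
          apply Real.rpow_le_rpow_of_exponent_le hN1.le
          refine le_trans ?_ hk5
          exact mul_le_mul_of_nonneg_left hk hκ₀.le
  have hhalf : (N : ℝ) ^ (dl / 2) ≤ (N : ℝ) ^ dl :=
    Real.rpow_le_rpow_of_exponent_le hN1.le (by linarith)
  obtain ⟨K, hK⟩ : ∃ K : ℕ, K = q ^ A := ⟨_, rfl⟩
  have hK1 : 1 ≤ K := by rw [hK]; exact Nat.one_le_pow _ _ (by omega)
  have hKle2 : (K : ℝ) ≤ (N : ℝ) ^ (dl / 2) := by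
    rw [hK]
    push_cast
    exact hqpow A (a_le A).1
  obtain ⟨I, hI⟩ : ∃ I : Finset ℕ, I = Pz (K * K * m₀) := ⟨_, rfl⟩
  have hIp : ∀ p ∈ I, p.Prime := by
    intro p hp
    rw [hI] at hp
    unfold Pz at hp
    exact (Finset.mem_filter.mp hp).2
  obtain ⟨P, hP⟩ := Pool.Agent.LVB.st_exists I hIp
  have hsub : Pz (q ^ A) ⊆ I := by
    intro p hp
    rw [← hK] at hp
    unfold Pz at hp
    rw [Finset.mem_filter, Finset.mem_Icc] at hp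
    rw [hI]
    apply Pz_mem hp.2
    calc p ≤ K := hp.1.2
      _ ≤ K * K := Nat.le_mul_of_pos_right _ hK1
      _ ≤ K * K * m₀ := Nat.le_mul_of_pos_right _ hm₀
  have hKI : ∀ p : ℕ, p.Prime → p ≤ K * K → p ∈ I := fun p hp h => by
    rw [hI]
    exact Pz_mem hp (h.trans (Nat.le_mul_of_pos_right _ hm₀))
  have hKI' : ∀ p : ℕ, p.Prime → p ≤ K * m₀ → p ∈ I := fun p hp h => by
    rw [hI]
    exact Pz_mem hp (h.trans (Nat.mul_le_mul_right _ (Nat.le_mul_of_pos_right _ hK1)))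
  have hg0 : 0 ≤ gz χ β := hc₄.le.trans hg
  obtain ⟨b, F₁, F₂, hb, hbt, hbz, hF1, hF2, he2, he1, hs2, hs1, hfin⟩ :=
    hmoll q χ hE.pq (by omega) (gz χ β) hg0 hX2' I P hIp hP hsub
  rw [← hK] at hb hbz he2 he1 hs2 hs1
  have hlogq : 0 ≤ Real.log q := Real.log_nonneg hq1
  have hlogN : 0 < Real.log N := Real.log_pos hN1
  have hlogqN : Real.log q ≤ Real.log N := by
    apply Real.log_le_log (by linarith)
    refine hqN.trans ?_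
    calc (N : ℝ) ^ κ₀ ≤ (N : ℝ) ^ (1 : ℝ) := by
          apply Real.rpow_le_rpow_of_exponent_le hN1.le
          have : dl ≤ 1 := by unfold dl; norm_num
          have h5 : κ₀ * 1 ≤ κ₀ * ((A : ℝ) ^ 2 + 2 * A + 10) := by
            exact mul_le_mul_of_nonneg_left (a_le A).2.2.2.2 hκ₀.le
          linarith
      _ = N := Real.rpow_one _
  -- the functions
  have hf2 : MX (K * K) (HP K b b) = fun x => MX K b x ^ 2 := by
    funext x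
    rw [mx_hp_pr hb hb le_rfl le_rfl, sq]
  have hvS : SuppIn m₀ (vS s) := sh_supp hs
  have hf1 : MX (K * m₀) (HP (K * m₀) b (vS s)) =
      fun x => MX K b x * ∑ m ∈ Finset.Icc 1 m₀, s m * Um m x := by
    funext x
    rw [mx_hp_pr hb hvS (Nat.le_mul_of_pos_right _ hm₀) le_rfl]
    congr 1
    unfold MX vS
    refine Finset.sum_congr rfl fun m hm => ?_
    have hm' := (Finset.mem_Icc.mp hm).1
    have hm0 : 0 < Real.sqrt m := Real.sqrt_pos.mpr (by exact_mod_cast hm')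
    rw [mul_comm (Real.sqrt m), mul_div_assoc, div_self hm0.ne', mul_one]
  have hBs : SuppIn (K * K) (HP K b b) := hp_supp_pr hb hb
  have hBs' : SuppIn (K * m₀) (HP (K * m₀) b (vS s)) := hp_supp_pr hb hvS
  have hF1' : 0 < F₁ := hc.trans_le hF1
  obtain ⟨g1, g2, g3, g4, g5⟩ := (hgr I P hIp hP (K * K) (Nat.mul_pos hK1 hK1) hKI
    (HP K b b) F₂ hBs hF2).1 (by rw [hf2]; exact he2) (by rw [hf2]; exact hs2)
  obtain ⟨l1, l2, l3⟩ := (hgr I P hIp hP (K * m₀) (Nat.mul_pos hK1 hm₀) hKI'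
    (HP (K * m₀) b (vS s)) F₁ hBs' hF1').2 (by rw [hf1]; exact he1) (by rw [hf1]; exact hs1)
  refine ⟨I, P, K, b, F₁, F₂, ?_⟩
  refine
    { prim := hIp, st := hP, K1 := hK1, K_le := hKle2.trans hhalf,
      q_le := by
        have := hqpow 1 (a_le A).2.1
        rw [pow_one] at this
        exact this.trans hhalf
      KI := hKI, KI' := hKI', supp := hb, b_le := ?_, b_tau := ?_, zero := hbz,
      F1 := (min_le_left _ _).trans hF1, F2 := hF2, g_ge := (min_le_right _ _).trans hg,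
      d_ge := ?_, j11 := re_sub_le g1, j22 := re_sub_le g2, j20 := re_sub_le g3,
      j02 := re_sub_le g4, j00 := re_sub_le g5, r1 := re_sub_le l1, r2 := re_sub_le l2,
      r0 := re_sub_le l3, fin := ?_ }
  · intro k
    by_cases hk : b k = 0
    · rw [hk, abs_zero]
      positivity
    · have hk' := hb k hk
      refine (hbt k).trans ?_
      have h5 : tau k ≤ (q : ℝ) ^ A := by
        refine tau_le_self'.trans ?_
        have : k ≤ q ^ A := by rw [← hK]; exact hk'.2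
        exact_mod_cast this
      have h6 : Real.log q ≤ q := (Real.log_le_sub_one_of_pos (by linarith)).trans (by linarith)
      have ht0 : 0 ≤ tau k := by unfold tau; positivity
      have hCN : C ≤ (N : ℝ) ^ (dl / 2) := by simpa using hN₅ N (by omega)
      calc C * Real.log q ^ A * tau k ^ A ≤ C * (q : ℝ) ^ A * ((q : ℝ) ^ A) ^ A := by
            gcongr
        _ = C * (q : ℝ) ^ (A ^ 2 + A) := by ring
        _ ≤ (N : ℝ) ^ (dl / 2) * (N : ℝ) ^ (dl / 2) := by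
            exact mul_le_mul hCN (hqpow _ (a_le A).2.2.2.1) (by positivity) (by positivity)
        _ = (N : ℝ) ^ dl := by
            rw [← Real.rpow_add hN0]
            congr 1
            ring
  · intro k
    refine (hbt k).trans ?_
    have ht0 : 0 ≤ tau k := by unfold tau; positivity
    gcongr
  · refine le_trans ?_ hd
    have h5 := hqpow 2 (a_le A).2.2.1
    have hq2 : (0 : ℝ) < (q : ℝ) ^ 2 := by positivity
    rw [Real.rpow_neg hN0.le, le_div_iff₀ hq2]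
    have h6 : 0 < (N : ℝ) ^ (dl / 2) := by positivity
    have h7 : ((N : ℝ) ^ (dl / 2))⁻¹ * (q : ℝ) ^ 2 ≤ 1 := by
      rw [inv_mul_le_iff₀ h6, mul_one]
      exact h5
    calc min c c₄ * ((N : ℝ) ^ (dl / 2))⁻¹ * (q : ℝ) ^ 2 =
        min c c₄ * (((N : ℝ) ^ (dl / 2))⁻¹ * (q : ℝ) ^ 2) := by ring
      _ ≤ c₄ * 1 := mul_le_mul (min_le_right _ _) h7 (by positivity) hc₄.le
      _ = c₄ := mul_one _
  · have h5 : Mm χ β F₂ * ∑ m ∈ Finset.Icc 1 m₀, s m ^ 2 = gz χ β ^ 2 *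
        (gz χ β ^ 2 * ((q.totient : ℝ) / q / ‖zq q 2‖) * F₂ * ∑ m ∈ Finset.Icc 1 m₀, s m ^ 2) := by
      unfold Mm
      ring
    rw [h5]
    calc gz χ β ^ 2 *
        (gz χ β ^ 2 * ((q.totient : ℝ) / q / ‖zq q 2‖) * F₂ * ∑ m ∈ Finset.Icc 1 m₀, s m ^ 2) ≤
        gz χ β ^ 2 * ((1 + ε) ^ 10 * F₁ ^ 2) := mul_le_mul_of_nonneg_left hfin (sq_nonneg _)
      _ ≤ gz χ β ^ 2 * ((1 + η) * F₁ ^ 2) := by gcongr
      _ = (1 + η) * (gz χ β * F₁) ^ 2 := by ring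

end Pool.Agent.LX
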