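import Pool.Agent.Lib_helper71.LSP3.AS7

/-! LSP3, assembly: class minus. -/

set_option autoImplicit false

namespace Pool.Agent.LX

open Complex MeasureTheory Set Filter Topology
open Pool.Agent.LSP (tau MX sg1 wX QN KerL ExVec ExData ExZ)
open Pool.Agent.KSL (WW)
open Pool.Agent.LEV (Um)
open Pool.Agent.LVB (IsST)
open Pool.Agent.LK (V KerC PQ)
open Pool.Agent.LE
open Pool.Agent.LG (Par Ai J3)
open Pool.Agent.LM (cv Pz)

/-- class `χ(-N) = -1` -/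
theorem minus_main (hG : GramS) (h2 : X2S) (h4 : X4S) {m₀ : ℕ} (hm₀ : 1 ≤ m₀) {s : ℕ → ℝ}
    (hs : SuppIn m₀ s) (hσ : 0 < ∑ m ∈ Finset.Icc 1 m₀, s m ^ 2) {e : ℝ} (he : 0 < e) :
    ∃ (κ₀ c C : ℝ) (A : ℕ) (N₀ : ℕ), 0 < κ₀ ∧ 0 < c ∧ 0 < C ∧ ∀ N : ℕ, N₀ ≤ N → N.Prime →
      ∀ (q : ℕ) [NeZero q] (χ : DirichletCharacter ℂ q) (β : ℝ), Ex κ₀ N χ β →
      χ (-(N : ZMod q)) = (-1) ^ 1 → ∃ (K : ℕ) (b θ : ℕ → ℝ) (ρ : ℝ → ℝ) (B₀ : ℕ),
        ExVec 1 m₀ s e N ((N : ℝ) ^ nu) ρ B₀ (Aa q N * K ^ 2) (xx χ {1} θ N K b) ∧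
        SuppIn K b ∧ 1 ≤ K ∧ (∀ k, |b k| ≤ C * Real.log N ^ A * tau k ^ A) ∧
        |θ 1| ≤ C ∧ (K : ℝ) ≤ (N : ℝ) ^ dl ∧ (q : ℝ) ≤ (N : ℝ) ^ dl := by
  obtain ⟨σ, hσd⟩ : ∃ σ : ℝ, σ = ∑ m ∈ Finset.Icc 1 m₀, s m ^ 2 := ⟨_, rfl⟩
  have hσ0 : 0 < σ := by rw [hσd]; exact hσ
  obtain ⟨η, hη0, hη1, hησ⟩ : ∃ η : ℝ, 0 < η ∧ η ≤ 1 ∧ η * σ ≤ e / 8 := by
    refine ⟨min 1 (e / 8 / σ), by positivity, min_le_left _ _, ?_⟩
    calc min 1 (e / 8 / σ) * σ ≤ e / 8 / σ * σ :=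
          mul_le_mul_of_nonneg_right (min_le_right _ _) hσ0.le
      _ = e / 8 := by field_simp
  obtain ⟨κ₀, c, C, A, N₁, hκ₀, hc, hC, hdat⟩ := dat_exists hG h2 h4 hm₀ hs hσ hη0
  obtain ⟨N₂, hN₂⟩ := vec_exists {1} hm₀ hs he 1 η c C A
  obtain ⟨N₃, hN₃⟩ := as_grow (σ / (c * c)) 0 dl_pos
  refine ⟨κ₀, c, C + σ / (c * c), A, N₁ + N₂ + N₃ + 3, hκ₀, hc, by positivity,
    fun N hN hNp q _ χ β hE hpar => ?_⟩
  obtain ⟨I, P, K, b, F₁, F₂, hD⟩ := hdat N (by omega) q χ β hE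
  have hF1 : 0 < F₁ := hc.trans_le hD.F1
  have hg : 0 < gz χ β := hc.trans_le hD.g_ge
  have hlogN : 0 ≤ Real.log N := Real.log_natCast_nonneg N
  obtain ⟨G, hGd⟩ : ∃ G : ℝ, G = gz χ β * F₁ := ⟨_, rfl⟩
  have hG0 : 0 < G := by rw [hGd]; positivity
  have hGc : c * c ≤ G := by
    rw [hGd]
    exact mul_le_mul hD.g_ge hD.F1 hc.le hg.le
  obtain ⟨M, hMd⟩ : ∃ M : ℝ, M = Mm χ β F₂ := ⟨_, rfl⟩
  have hj := hD.j11
  have hr := hD.r1
  have hfin := hD.fin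
  rw [← hMd] at hj hfin
  rw [← hGd] at hr hfin
  rw [← hσd] at hfin
  have hθ : |σ / G| ≤ σ / (c * c) := by
    rw [abs_of_pos (by positivity)]
    gcongr
  have hθ' : |σ / G| ≤ (N : ℝ) ^ dl := hθ.trans (by simpa using hN₃ N (by omega))
  have haM : (σ / G) ^ 2 * M ≤ σ * (1 + η) := by
    rw [div_pow, div_mul_eq_mul_div, div_le_iff₀ (by positivity)]
    calc σ ^ 2 * M = σ * (M * σ) := by ring
      _ ≤ σ * ((1 + η) * G ^ 2) := mul_le_mul_of_nonneg_left hfin hσ0.le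
      _ = σ * (1 + η) * G ^ 2 := by ring
  obtain ⟨ρ, B₀, hv⟩ := hN₂ N (by omega) hNp q χ β I P K b F₁ F₂ hD hE.pq (fun i hi => by
      rw [Finset.mem_singleton] at hi
      rw [hi]
      exact hpar) (fun _ => σ / G) (fun i _ => hθ') (by
      rw [Finset.sum_singleton, ← hσd]
      have h1 := (abs_le.mp hr).1
      have h3 : σ - η * σ ≤ σ / G * (RR χ P I (K * m₀) (HP (K * m₀) b (vS s)) 1 N).re := by
        calc σ - η * σ = σ / G * (G - η * G) := by field_simp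
          _ ≤ _ := mul_le_mul_of_nonneg_left (by linarith) (by positivity)
      linarith) (by
      rw [Finset.sum_singleton, Finset.sum_singleton, ← hσd]
      have h1 := (abs_le.mp hj).2
      have h3 : σ / G * (σ / G) * (JJ χ P I (K * K) (HP K b b) 1 1 N).re ≤
          (σ / G) ^ 2 * M * (2 + η) := by
        calc σ / G * (σ / G) * (JJ χ P I (K * K) (HP K b b) 1 1 N).re ≤
            σ / G * (σ / G) * (2 * M + η * M) :=
              mul_le_mul_of_nonneg_left (by linarith) (by positivity)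
          _ = _ := by ring
      have h5 : (σ / G) ^ 2 * M * (2 + η) ≤ σ * (1 + η) * (2 + η) :=
        mul_le_mul_of_nonneg_right haM (by linarith)
      have h6 : σ * (1 + η) * (2 + η) ≤ 2 * σ + 4 * (η * σ) := by
        have h7 := mul_le_mul_of_nonneg_left hη1 (mul_nonneg hη0.le hσ0.le)
        linarith [show σ * (1 + η) * (2 + η) = 2 * σ + 3 * (η * σ) + η * σ * η by ring]
      have h9 : (2 : ℝ) / 1 * σ = 2 * σ := by ring
      rw [h9]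
      linarith)
  refine ⟨K, b, fun _ => σ / G, ρ, B₀, hv, hD.supp, hD.K1, fun k => (hD.b_tau k).trans ?_, ?_,
    hD.K_le, hD.q_le⟩
  · have h1 : 0 ≤ tau k := by unfold tau; positivity
    have h3 : 0 ≤ σ / (c * c) := by positivity
    gcongr
    linarith
  · have h3 : |σ / G| ≤ σ / (c * c) := hθ
    show |σ / G| ≤ C + σ / (c * c)
    linarith

end Pool.Agent.LX
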