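import Pool.Agent.Lib_helper31.LK.DefsP

/-! LSP3, part F: the interface between the evaluation of the moments and the counting. -/

set_option autoImplicit false

namespace Pool.Agent.LSP

open Pool.Agent.LEV Pool.Agent.LVB Pool.Agent.KSL
open Pool.Agent.LK (KerC PQ)

/-- a mollified central value whose inner product with the Hecke polynomial `S = ∑ s_m U_m` is at
least `‖S‖² - e` and whose second moment is at most `(2 / q) ‖S‖² + e` -/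
structure ExVec (q : ℝ) (m₀ : ℕ) (s : ℕ → ℝ) (e : ℝ) (N : ℕ) (T : ℝ) (ρ : ℝ → ℝ) (B₀ E : ℕ)
    (x : ℕ → ℝ) : Prop where
  ker : KerL T ρ
  bB : 1 + T ^ 2 ≤ (B₀ : ℝ)
  one : 1 ≤ E
  supp : ∀ n, x n ≠ 0 → 1 ≤ n ∧ n ≤ E
  zero : ∑ n ∈ Finset.Icc 1 E, x n * sg1 n / n = 0
  size : T ^ 2 * E ≤ (N : ℝ) ^ (9 / 10 : ℝ)
  ww : ∀ m, 1 ≤ m → m ≤ m₀ → |WW E (wX E x) m| ≤ (N : ℝ) ^ (1 / 20 : ℝ)
  lin : ∑ m ∈ Finset.Icc 1 m₀, s m ^ 2 - e ≤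
    ∑ m ∈ Finset.Icc 1 m₀, s m * WW E (wX E x) m / Real.sqrt m
  quad : QN ρ T B₀ E x N ≤ 2 / q * ∑ m ∈ Finset.Icc 1 m₀, s m ^ 2 + e

/-- such vectors exist for every test polynomial at every large prime level `N` with `P κ N`,
`κ` small -/
def ExData (q : ℝ) (P : ℝ → ℕ → Prop) : Prop :=
  ∀ (m₀ : ℕ) (s : ℕ → ℝ), 1 ≤ m₀ → (∀ m, s m ≠ 0 → 1 ≤ m ∧ m ≤ m₀) → ∀ e : ℝ, 0 < e →
    ∃ κ₀ : ℝ, 0 < κ₀ ∧ ∀ κ : ℝ, 0 < κ → κ ≤ κ₀ → ∃ N₀ : ℕ, ∀ N : ℕ, N₀ ≤ N → N.Prime → P κ N →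
      ∃ (T : ℝ) (ρ : ℝ → ℝ) (B₀ E : ℕ) (x : ℕ → ℝ), ExVec q m₀ s e N T ρ B₀ E x

/-- the same with a bound for the mean square of the mollifier -/
def ExDataB (q : ℝ) (P : ℝ → ℕ → Prop) : Prop :=
  ∀ (m₀ : ℕ) (s : ℕ → ℝ), 1 ≤ m₀ → (∀ m, s m ≠ 0 → 1 ≤ m ∧ m ≤ m₀) → ∀ e : ℝ, 0 < e →
    ∃ (κ₀ : ℝ) (w : ℕ), 0 < κ₀ ∧ ∀ κ : ℝ, 0 < κ → κ ≤ κ₀ → ∃ N₀ : ℕ, ∀ N : ℕ, N₀ ≤ N →
      N.Prime → P κ N → ∃ (T : ℝ) (ρ : ℝ → ℝ) (B₀ E : ℕ) (x : ℕ → ℝ),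
        ExVec q m₀ s e N T ρ B₀ E x ∧ ∑ n ∈ Finset.Icc 1 E, x n ^ 2 / n ≤ Real.log N ^ w

/-- there is a quadratic character of conductor at most `N^κ`, with `χ(-N) = (-1)^i`, whose
`L`-function has a zero within `κ / log N` of `1` -/
def ExZ (i : ℕ) (κ : ℝ) (N : ℕ) : Prop :=
  ∃ (q : ℕ) (_ : NeZero q) (χ : DirichletCharacter ℂ q) (β : ℝ), PQ χ ∧ (q : ℝ) ≤ (N : ℝ) ^ κ ∧
    χ (-(N : ZMod q)) = (-1) ^ i ∧ 1 - κ / Real.log N < β ∧ β < 1 ∧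
    DirichletCharacter.LFunction χ (β : ℂ) = 0

/-- the same, and the zero is not closer to `1` than `(log N)^{-B}` -/
def ExZB (B : ℝ) (i : ℕ) (κ : ℝ) (N : ℕ) : Prop :=
  ∃ (q : ℕ) (_ : NeZero q) (χ : DirichletCharacter ℂ q) (β : ℝ), PQ χ ∧ (q : ℝ) ≤ (N : ℝ) ^ κ ∧
    χ (-(N : ZMod q)) = (-1) ^ i ∧ 1 - κ / Real.log N < β ∧ β ≤ 1 - Real.log N ^ (-B) ∧
    DirichletCharacter.LFunction χ (β : ℂ) = 0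

end Pool.Agent.LSP
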